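import Pool.Agent.V7H1.HS.Closed
import Pool.Agent.H914R2.DDefs
import Pool.Agent.H914R2.WeilBasic

/-!
# Algebraic classes as a rational vector space with a rational form
-/

set_option autoImplicit false

open CategoryTheory AlgebraicGeometry

universe u v

namespace Pool.Agent.V7H1.HS

open Pool.Agent.H914 Pool.Agent.H914.VarClass Pool.Agent.H914.VarClass.Obj
  Pool.Agent.H914.WeilCohomology Module

variable {k : Type u} [Field k] {𝒱 : VarClass k} {ops : CycleOps 𝒱}
  (W : WeilCohomology.{u, v} ops) (X : 𝒱.Obj)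

/-- the cohomology as a rational vector space -/
noncomputable abbrev ratMod : Module ℚ (W.H X) := Module.compHom (W.H X) (algebraMap ℚ W.K)

attribute [local instance] ratMod

variable {W X}

lemma rat_smul (q : ℚ) (x : W.H X) : q • x = (q : W.K) • x := by
  change (algebraMap ℚ W.K q) • x = _
  rw [eq_ratCast]

noncomputable instance towerInst : IsScalarTower ℚ W.K (W.H X) := ⟨fun q c x => by
  rw [rat_smul, Rat.smul_def, mul_smul]⟩

lemma cl_smul' (q : ℚ) (z : X.Cycles) : W.cl X (q • z) = q • W.cl X z := by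
  rw [W.cl_smul, rat_smul]

variable (W X)

/-- the rational space of the algebraic classes of codimension `j` -/
noncomputable def algSub (j : ℕ) : Submodule ℚ (W.H X) where
  carrier := algClasses W X j
  add_mem' := by
    rintro _ _ ⟨z, hz, rfl⟩ ⟨w, hw, rfl⟩
    exact ⟨z + w, hz.add hw, map_add _ _ _⟩
  zero_mem' := ⟨0, SmVar.IsCyc.zero _ _, map_zero _⟩
  smul_mem' := by
    rintro q _ ⟨z, hz, rfl⟩
    exact ⟨q • z, hz.smul q, cl_smul' q z⟩

/-- a rational projection of the coefficient field -/
noncomputable def retr : W.K →ₗ[ℚ] ℚ :=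
  Classical.choose ((Algebra.linearMap ℚ W.K).exists_leftInverse_of_injective
    (LinearMap.ker_eq_bot.2 (algebraMap ℚ W.K).injective))

variable {W X}

lemma retr_cast (q : ℚ) : retr W (q : W.K) = q := by
  have h := Classical.choose_spec ((Algebra.linearMap ℚ W.K).exists_leftInverse_of_injective
    (LinearMap.ker_eq_bot.2 (algebraMap ℚ W.K).injective))
  have := LinearMap.congr_fun h q
  rw [LinearMap.comp_apply, Algebra.linearMap_apply, eq_ratCast] at this
  exact this

lemma mem_algSub {j : ℕ} {x : W.H X} : x ∈ algSub W X j ↔ ∃ z, X.IsCyc j z ∧ W.cl X z = x := Iff.rfl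

lemma algSub_gr {j : ℕ} {x : W.H X} (hx : x ∈ algSub W X j) : x ∈ W.gr X (2 * j) := by
  obtain ⟨z, hz, rfl⟩ := hx
  exact W.cl_mem hz

lemma algSub_top {j : ℕ} (hj : X.dim < j) {x : W.H X} (hx : x ∈ algSub W X j) : x = 0 := by
  have := algSub_gr hx
  rw [W.gr_eq_bot X (2 * j) (by omega)] at this
  exact (Submodule.mem_bot _).1 this

lemma algSub_mul {i j : ℕ} {x y : W.H X} (hx : x ∈ algSub W X i) (hy : y ∈ algSub W X j) :
    x * y ∈ algSub W X (i + j) := by
  obtain ⟨z, hz, rfl⟩ := hx
  obtain ⟨w, hw, rfl⟩ := hy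
  exact ⟨ops.mul z w, ops.mul_mem hz hw, W.cl_mul z w⟩

variable (W X)

/-- the rational intersection form -/
noncomputable def form : W.H X →ₗ[ℚ] W.H X →ₗ[ℚ] ℚ :=
  LinearMap.mk₂ ℚ (fun x y => retr W (W.tr X (x * y)))
    (fun x x' y => by rw [add_mul, map_add, map_add])
    (fun q x y => by rw [rat_smul, smul_mul_assoc, ← rat_smul, rat_smul, map_smul, smul_eq_mul,
      ← Rat.smul_def, map_smul])
    (fun x y y' => by rw [mul_add, map_add, map_add])
    (fun q x y => by rw [rat_smul, mul_smul_comm, map_smul, smul_eq_mul,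
      ← Rat.smul_def, map_smul])

/-- multiplication by the class of a divisor -/
noncomputable def opL (D : X.Cycles) : W.H X →ₗ[ℚ] W.H X :=
  (LinearMap.mulLeft W.K (W.cl X D)).restrictScalars ℚ

variable {W X}

@[simp] lemma form_apply (x y : W.H X) : form W X x y = retr W (W.tr X (x * y)) := rfl

@[simp] lemma opL_apply (D : X.Cycles) (x : W.H X) : opL W X D x = W.cl X D * x := rfl

lemma opL_pow (D z : X.Cycles) (m : ℕ) : (opL W X D ^ m) (W.cl X z) = W.cl X (divPow ops D m z) := by
  induction m with
  | zero => rfl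
  | succ m ih =>
    rw [pow_succ', Module.End.mul_apply, ih, opL_apply, divPow, divPow, Function.iterate_succ_apply',
      W.cl_mul]

lemma opL_add (D E : X.Cycles) (ε : ℚ) : opL W X (D + ε • E) = opL W X D + ε • opL W X E := by
  apply LinearMap.ext
  intro x
  simp only [opL_apply, LinearMap.add_apply, LinearMap.smul_apply]
  rw [map_add, cl_smul', add_mul, rat_smul, rat_smul, smul_mul_assoc]

lemma opL_mem {D : X.Cycles} (hD : X.IsCyc 1 D) (j : ℕ) (x : W.H X) (hx : x ∈ algSub W X j) :
    opL W X D x ∈ algSub W X (j + 1) := by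
  rw [add_comm]
  exact algSub_mul ⟨D, hD, rfl⟩ hx

lemma form_cl {i j : ℕ} {z w : X.Cycles} (hz : X.IsCyc i z) (hw : X.IsCyc j w)
    (h : i + j = X.dim) : form W X (W.cl X z) (W.cl X w) = X.V.degCycle (ops.mul z w) := by
  rw [form_apply, ← W.cl_mul, W.tr_cl (h ▸ ops.mul_mem hz hw), retr_cast]

/-- the trace of a product of algebraic classes is rational -/
lemma tr_rat {i j : ℕ} {x y : W.H X} (hx : x ∈ algSub W X i) (hy : y ∈ algSub W X j) :
    W.tr X (x * y) = ((form W X x y : ℚ) : W.K) := by
  by_cases h : i + j = X.dim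
  · obtain ⟨z, hz, rfl⟩ := hx
    obtain ⟨w, hw, rfl⟩ := hy
    rw [form_cl hz hw h, ← W.cl_mul, W.tr_cl (h ▸ ops.mul_mem hz hw)]
  · have : W.tr X (x * y) = 0 :=
      W.tr_eq_zero (W.mul_mem (algSub_gr hx) (algSub_gr hy)) (by omega)
    rw [form_apply, this, map_zero, Rat.cast_zero]

lemma form_comm_even {i : ℕ} {x : W.H X} (hx : x ∈ W.gr X (2 * i)) (y : W.H X) :
    form W X x y = form W X y x := by
  rw [form_apply, form_apply, W.even_comm hx]

lemma form_adj {D : X.Cycles} (hD : X.IsCyc 1 D) (x y : W.H X) :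
    form W X (opL W X D x) y = form W X x (opL W X D y) := by
  rw [form_apply, form_apply, opL_apply, opL_apply, W.even_comm (W.cl_mem hD), mul_assoc]

variable (W X)

/-- the space of all algebraic classes -/
noncomputable def algAll : Submodule ℚ (W.H X) := ⨆ j : Fin (X.dim + 1), algSub W X j

variable {W X}

lemma algSub_le (j : ℕ) : algSub W X j ≤ algAll W X := by
  by_cases hj : X.dim < j
  · intro x hx
    rw [algSub_top hj hx]
    exact Submodule.zero_mem _
  · exact le_iSup (fun j : Fin (X.dim + 1) => algSub W X j) ⟨j, by omega⟩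

lemma algAll_induction {p : W.H X → Prop} (h0 : p 0) (hadd : ∀ x y, p x → p y → p (x + y))
    (h : ∀ j, ∀ x ∈ algSub W X j, p x) {x : W.H X} (hx : x ∈ algAll W X) : p x := by
  refine Submodule.iSup_induction (fun j : Fin (X.dim + 1) => algSub W X j) (motive := p) hx ?_ h0
    hadd
  intro j x hx
  exact h _ x hx

lemma form_comm_alg {x : W.H X} (hx : x ∈ algAll W X) (y : W.H X) :
    form W X x y = form W X y x := by
  refine algAll_induction (p := fun x => form W X x y = form W X y x) ?_ ?_ ?_ hx
  · simp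
  · intro x x' h h'
    rw [map_add, map_add, LinearMap.add_apply, h, h']
  · intro j x hx
    exact form_comm_even (algSub_gr hx) y

/-- the conjecture `D` in terms of the form -/
lemma homEqNum_iff : HomEqNum W X ↔
    ∀ j ≤ X.dim, ∀ x ∈ algSub W X j, (∀ y ∈ algSub W X (X.dim - j), form W X x y = 0) → x = 0 := by
  constructor
  · rintro h j hj _ ⟨z, hz, rfl⟩ h0
    refine h j hj z hz fun w hw => ?_
    rw [← form_cl hz hw (by omega)]
    exact h0 _ ⟨w, hw, rfl⟩
  · intro h j hj z hz h0
    refine h j hj _ ⟨z, hz, rfl⟩ ?_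
    rintro _ ⟨w, hw, rfl⟩
    rw [form_cl hz hw (by omega)]
    exact h0 w hw

/-- the standard conjecture of Hodge type in terms of the form -/
lemma hodgeType_iff (D : X.Cycles) (hD : X.IsCyc 1 D) : HodgeType W X D ↔
    HR (algSub W X) X.dim (form W X) (opL W X D) := by
  have hpow : ∀ m j z, X.IsCyc j z → X.IsCyc (j + m) (divPow ops D m z) := by
    intro m
    induction m with
    | zero => intro j z hz; exact hz
    | succ m ih =>
      intro j z hz
      rw [divPow, Function.iterate_succ_apply']
      have := ops.mul_mem hD (ih j z hz)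
      rwa [show 1 + (j + m) = j + (m + 1) by omega] at this
  constructor
  · rintro h j hj _ ⟨z, hz, rfl⟩ h0 hne
    rw [opL_pow] at h0
    have := h j hj z hz h0 hne
    rw [opL_pow, form_cl hz (hpow _ _ _ hz) (by omega)]
    exact this
  · intro h j hj z hz h0 hne
    have := h j hj _ ⟨z, hz, rfl⟩ (by rw [opL_pow]; exact h0) hne
    rwa [opL_pow, form_cl hz (hpow _ _ _ hz) (by omega)] at this

/-- the algebraic classes form a finite-dimensional rational space, if homological and numerical
equivalence coincide -/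
lemma finite_algSub (h : HomEqNum W X) (j : ℕ) : FiniteDimensional ℚ (algSub W X j) := by
  by_cases hj : X.dim < j
  · have : algSub W X j = ⊥ := by
      rw [eq_bot_iff]
      intro x hx
      rw [algSub_top hj hx]
      exact Submodule.zero_mem _
    rw [this]
    infer_instance
  · rw [homEqNum_iff] at h
    obtain ⟨S, hS, hspan⟩ : ∃ S : Finset (W.H X), (∀ w ∈ S, w ∈ algSub W X (X.dim - j)) ∧
        ∀ w ∈ algSub W X (X.dim - j), w ∈ Submodule.span W.K (S : Set (W.H X)) := by
      have hfg : (Submodule.span W.K (algSub W X (X.dim - j) : Set (W.H X))).FG :=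
        IsNoetherian.noetherian _
      obtain ⟨S, hS, hS'⟩ := Submodule.fg_span_iff_fg_span_finset_subset _ |>.1 hfg
      exact ⟨S, fun w hw => hS hw, fun w hw => hS' ▸ Submodule.subset_span hw⟩
    have hinj : Function.Injective
        (LinearMap.pi (fun w : S => (form W X).flip w.1) ∘ₗ (algSub W X j).subtype) := by
      rw [← LinearMap.ker_eq_bot, LinearMap.ker_eq_bot']
      intro x hx
      apply Subtype.ext
      apply h j (by omega) _ x.2
      intro y hy
      have h1 : ∀ w ∈ S, W.tr X (x.1 * w) = 0 := by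
        intro w hw
        have h2 : form W X x.1 w = 0 := congrFun hx ⟨w, hw⟩
        rw [tr_rat x.2 (hS w hw), h2, Rat.cast_zero]
      have h3 : Submodule.span W.K (S : Set (W.H X)) ≤
          LinearMap.ker (W.tr X ∘ₗ LinearMap.mulLeft W.K x.1) := by
        rw [Submodule.span_le]
        intro w hw
        exact h1 w hw
      have h4 : W.tr X (x.1 * y) = 0 := h3 (hspan y hy)
      rw [form_apply, h4, map_zero]
    exact FiniteDimensional.of_injective _ hinj

end Pool.Agent.V7H1.HS
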