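import Pool.Agent.V7H1.HS.Open

/-!
# The Hodge-Riemann property is closed where hard Lefschetz holds
-/

set_option autoImplicit false

namespace Pool.Agent.V7H1.HS

open Module

variable {T : Type*} [AddCommGroup T] [Module ℚ T]

lemma pow_mem' {A : ℕ → Submodule ℚ T} {L : Module.End ℚ T}
    (hLA : ∀ j, ∀ x ∈ A j, L x ∈ A (j + 1)) (k : ℕ) : ∀ j, ∀ x ∈ A j, (L ^ k) x ∈ A (j + k) := by
  induction k with
  | zero => intro j x hx; simpa using hx
  | succ k ih =>
    intro j x hx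
    rw [pow_succ', Module.End.mul_apply]
    exact hLA _ _ (ih j x hx)

variable [FiniteDimensional ℚ T]

/-- injectivity of a power persists, with uniform bounds -/
lemma inj_near (A : Submodule ℚ T) (L E : Module.End ℚ T) (k : ℕ)
    (h : ∀ x ∈ A, (L ^ k) x = 0 → x = 0) :
    ∃ C δ : ℚ, 0 < C ∧ 0 < δ ∧ δ ≤ 1 ∧ ∀ ε : ℚ, |ε| < δ → ∀ y ∈ A,
      nq y ≤ C * nq (((L + ε • E) ^ k) y) := by
  obtain ⟨κ, C, hκ, hC, hF⟩ := finsler_on A 0 (fun _ _ => rfl) (L ^ k)
    (fun x hx h1 h2 => absurd (h x hx h1) h2)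
  obtain ⟨C₁, hC₁, hp⟩ := pow_close L E k
  refine ⟨4 * C / κ, min 1 (κ / (4 * C * C₁)), by positivity, lt_min one_pos (by positivity),
    min_le_left _ _, fun ε hε y hy => ?_⟩
  have hε1 : |ε| < 1 := lt_of_lt_of_le hε (min_le_left _ _)
  have hε2 : |ε| < κ / (4 * C * C₁) := lt_of_lt_of_le hε (min_le_right _ _)
  rw [lt_div_iff₀ (by positivity)] at hε2
  have h1 := hF y hy
  simp only [LinearMap.zero_apply, zero_add] at h1
  have h2 := hp ε hε1.le y
  have h3 := nq_add_le (((L + ε • E) ^ k) y) (-(((L + ε • E) ^ k) y - (L ^ k) y))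
  rw [nq_neg] at h3
  have h4 : ((L + ε • E) ^ k) y + -(((L + ε • E) ^ k) y - (L ^ k) y) = (L ^ k) y := by abel
  rw [h4] at h3
  have hny := nq_nonneg y
  have e3 : ε ^ 2 ≤ |ε| := by
    rw [← sq_abs]
    nlinarith [abs_nonneg ε]
  have h5 : C * (2 * (C₁ * ε ^ 2 * nq y)) ≤ κ / 2 * nq y := by
    calc C * (2 * (C₁ * ε ^ 2 * nq y)) = 2 * C * C₁ * nq y * ε ^ 2 := by ring
      _ ≤ 2 * C * C₁ * nq y * |ε| := mul_le_mul_of_nonneg_left e3 (by positivity)
      _ = (|ε| * (4 * C * C₁)) / 2 * nq y := by ring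
      _ ≤ κ / 2 * nq y := mul_le_mul_of_nonneg_right (by linarith) hny
  have h6 : C * nq ((L ^ k) y) ≤ C * (2 * nq (((L + ε • E) ^ k) y) + 2 * (C₁ * ε ^ 2 * nq y)) :=
    mul_le_mul_of_nonneg_left (by linarith) hC.le
  have h7 : κ / 2 * nq y ≤ 2 * C * nq (((L + ε • E) ^ k) y) := by
    have : κ * nq y = κ / 2 * nq y + κ / 2 * nq y := by ring
    linarith
  calc nq y = 2 / κ * (κ / 2 * nq y) := by field_simp
    _ ≤ 2 / κ * (2 * C * nq (((L + ε • E) ^ k) y)) := mul_le_mul_of_nonneg_left h7 (by positivity)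
    _ = _ := by ring

/-- complementary pieces have the same dimension -/
lemma finrank_eq {A : ℕ → Submodule ℚ T} {n : ℕ} {b : T →ₗ[ℚ] T →ₗ[ℚ] ℚ}
    (hnd : ∀ j ≤ n, ∀ x ∈ A j, (∀ y ∈ A (n - j), b x y = 0) → x = 0) {j : ℕ} (hj : j ≤ n) :
    finrank ℚ (A j) = finrank ℚ (A (n - j)) := by
  have key : ∀ i ≤ n, finrank ℚ (A i) ≤ finrank ℚ (A (n - i)) := by
    intro i hi
    have h1 : Function.Injective (b.compl₁₂ (A i).subtype (A (n - i)).subtype) := by
      rw [← LinearMap.ker_eq_bot, LinearMap.ker_eq_bot']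
      intro x hx
      apply Subtype.ext
      apply hnd i hi _ x.2
      intro y hy
      have := LinearMap.congr_fun hx ⟨y, hy⟩
      simpa using this
    have h2 := LinearMap.finrank_le_finrank_of_injective h1
    have h3 : finrank ℚ (Module.Dual ℚ (A (n - i))) = finrank ℚ (A (n - i)) :=
      Subspace.dual_finrank_eq
    exact h2.trans h3.le
  apply le_antisymm (key j hj)
  have := key (n - j) (Nat.sub_le _ _)
  rwa [Nat.sub_sub_self hj] at this

lemma surj_of_inj {A : ℕ → Submodule ℚ T} {n : ℕ} {b : T →ₗ[ℚ] T →ₗ[ℚ] ℚ}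
    (hnd : ∀ j ≤ n, ∀ x ∈ A j, (∀ y ∈ A (n - j), b x y = 0) → x = 0) {i k : ℕ}
    (hi : 2 * i ≤ n) (hk : i + k = n - i) (F : Module.End ℚ T)
    (hF : ∀ x ∈ A i, F x ∈ A (i + k)) (hinj : ∀ x ∈ A i, F x = 0 → x = 0) (w : T)
    (hw : w ∈ A (n - i)) : ∃ x ∈ A i, F x = w := by
  have hF' : ∀ x ∈ A i, F x ∈ A (n - i) := fun x hx => hk ▸ hF x hx
  set f : A i →ₗ[ℚ] A (n - i) := F.restrict hF' with hf
  have h1 : Function.Injective f := by
    rw [← LinearMap.ker_eq_bot, LinearMap.ker_eq_bot']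
    intro x hx
    exact Subtype.ext (hinj x x.2 (congrArg Subtype.val hx))
  have h2 : Function.Surjective f :=
    (LinearMap.injective_iff_surjective_of_finrank_eq_finrank
      (finrank_eq hnd (by omega))).1 h1
  obtain ⟨x, hx⟩ := h2 ⟨w, hw⟩
  exact ⟨x, x.2, congrArg Subtype.val hx⟩

/-- **The Hodge-Riemann property is closed where hard Lefschetz holds.** -/
theorem closed_HR (A : ℕ → Submodule ℚ T) (n : ℕ) (b : T →ₗ[ℚ] T →ₗ[ℚ] ℚ) (L E : Module.End ℚ T)
    (hb : ∀ x y, b x y = b y x) (hL : ∀ x y, b (L x) y = b x (L y))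
    (hE : ∀ x y, b (E x) y = b x (E y)) (hLA : ∀ j, ∀ x ∈ A j, L x ∈ A (j + 1))
    (hEA : ∀ j, ∀ x ∈ A j, E x ∈ A (j + 1)) (htop : ∀ x ∈ A (n + 1), x = 0)
    (hnd : ∀ j ≤ n, ∀ x ∈ A j, (∀ y ∈ A (n - j), b x y = 0) → x = 0)
    (hHL : ∀ j, 2 * j ≤ n → ∀ x ∈ A j, (L ^ (n - 2 * j)) x = 0 → x = 0)
    (h : ∀ δ : ℚ, 0 < δ → ∃ ε : ℚ, |ε| < δ ∧ HR A n b (L + ε • E)) : HR A n b L := by
  have hLE : ∀ ε : ℚ, ∀ x y, b ((L + ε • E) x) y = b x ((L + ε • E) y) := by
    intro ε x y
    simp only [LinearMap.add_apply, LinearMap.smul_apply, map_add, map_smul, hL, hE]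
  have hLEA : ∀ ε : ℚ, ∀ j, ∀ x ∈ A j, (L + ε • E) x ∈ A (j + 1) := by
    intro ε j x hx
    simp only [LinearMap.add_apply, LinearMap.smul_apply]
    exact (A (j + 1)).add_mem (hLA j x hx) ((A (j + 1)).smul_mem _ (hEA j x hx))
  -- semidefiniteness
  have key : ∀ j, 2 * j ≤ n → ∀ x ∈ A j, (L ^ (n - 2 * j + 1)) x = 0 →
      0 ≤ (-1 : ℚ) ^ j * b x ((L ^ (n - 2 * j)) x) := by
    intro j hj x hx hx0
    set m := n - 2 * j with hm
    set s : ℚ := (-1 : ℚ) ^ j with hs
    have hs1 : |s| = 1 := by rw [hs, abs_pow, abs_neg, abs_one, one_pow]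
    suffices hC : ∃ C δ : ℚ, 0 < C ∧ 0 < δ ∧ ∀ ε : ℚ, |ε| < δ → HR A n b (L + ε • E) →
        -(C * |ε|) ≤ s * b x ((L ^ m) x) by
      obtain ⟨C, δ, hC, hδ, hCδ⟩ := hC
      by_contra hneg
      push Not at hneg
      obtain ⟨ε, hε, hHR⟩ := h (min δ (-(s * b x ((L ^ m) x)) / C))
        (lt_min hδ (div_pos (by linarith) hC))
      have h1 := hCδ ε (lt_of_lt_of_le hε (min_le_left _ _)) hHR
      have h2 := lt_of_lt_of_le hε (min_le_right _ _)
      rw [lt_div_iff₀ hC] at h2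
      linarith
    obtain ⟨C₂, hC₂, hq⟩ := form_close b L E m
    have hnx := nq_nonneg x
    rcases Nat.eq_zero_or_pos j with hj0 | hj0
    · -- codimension zero
      refine ⟨C₂ * nq x + 1, 1, by positivity, one_pos, fun ε hε hHR => ?_⟩
      have h1 := hq ε hε.le x
      have h2 : 0 ≤ s * b x (((L + ε • E) ^ m) x) := by
        by_cases hx1 : x = 0
        · simp [hx1]
        · refine (hHR j hj x hx ?_ hx1).le
          apply htop
          have := pow_mem' (hLEA ε) (n - 2 * j + 1) j x hx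
          subst hj0
          simpa using this
      have h3 : |s * b x (((L + ε • E) ^ m) x) - s * b x ((L ^ m) x)| ≤ C₂ * |ε| * nq x := by
        rw [← mul_sub, abs_mul, hs1, one_mul]
        exact h1
      have h4 := (abs_le.1 h3).2
      have h5 : C₂ * |ε| * nq x ≤ (C₂ * nq x + 1) * |ε| := by
        have := abs_nonneg ε
        nlinarith
      linarith
    · obtain ⟨i, rfl⟩ : ∃ i, j = i + 1 := ⟨j - 1, by omega⟩
      have hi : 2 * i ≤ n := by omega
      have hmi : n - 2 * i = m + 2 := by omega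
      obtain ⟨C₃, δ, hC₃, hδ, hδ1, h3⟩ := inj_near (A i) L E (m + 2)
        (fun x hx h0 => hHL i hi x hx (by rw [hmi]; exact h0))
      obtain ⟨C₁, hC₁, hp⟩ := pow_close L E (m + 1)
      obtain ⟨B, hB, hbl⟩ := bilin_le b
      refine ⟨C₂ * nq x + B * (C₃ * C₁ + C₁) * nq x + 1, δ, by positivity, hδ,
        fun ε hε hHR => ?_⟩
      have hε1 : |ε| ≤ 1 := (hε.trans_le hδ1).le
      set Lε := L + ε • E with hLε
      obtain ⟨y, hy, hyx⟩ := surj_of_inj hnd (i := i) (k := m + 2) hi (by omega) (Lε ^ (m + 2))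
        (fun x hx => pow_mem' (hLEA ε) _ _ x hx)
        (fun x hx h0 => by
          have := h3 ε hε x hx
          rw [← hLε, h0, nq_zero, mul_zero] at this
          exact nq_eq_zero (le_antisymm this (nq_nonneg x))) ((Lε ^ (m + 1)) x)
        (by
          have := pow_mem' (hLEA ε) (m + 1) (i + 1) x hx
          rwa [show i + 1 + (m + 1) = n - i by omega] at this)
      set w := (Lε ^ (m + 1)) x with hw
      have hnw : nq w ≤ C₁ * ε ^ 2 * nq x := by
        have := hp ε hε1 x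
        rwa [hx0, sub_zero] at this
      have hny : nq y ≤ C₃ * nq w := by
        have := h3 ε hε y hy
        rwa [← hLε, hyx] at this
      -- the primitive class
      set x' := x - Lε y with hx'
      have hx'A : x' ∈ A (i + 1) := (A (i + 1)).sub_mem hx (hLEA ε i y hy)
      have hx'0 : (Lε ^ (m + 1)) x' = 0 := by
        rw [hx', map_sub, ← hw, ← Module.End.mul_apply, ← pow_succ, hyx, sub_self]
      have hpos : 0 ≤ s * b x' ((Lε ^ m) x') := by
        by_cases h0 : x' = 0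
        · simp [h0]
        · exact (hHR (i + 1) hj x' hx'A hx'0 h0).le
      have hexp : b x' ((Lε ^ m) x') = b x ((Lε ^ m) x) - b y w := by
        have e1 : b x' ((Lε ^ m) x') = b x ((Lε ^ m) x') - b y ((Lε ^ (m + 1)) x') := by
          conv_lhs => rw [hx']
          rw [map_sub, LinearMap.sub_apply, hLε, hLE, ← hLε, ← Module.End.mul_apply, ← pow_succ',
            ← hx']
        rw [e1, hx'0, map_zero, sub_zero, hx', map_sub, map_sub, hw]
        congr 1
        rw [← adj_pow (hLE ε), hb, hLε, hLE, ← hLε, ← Module.End.mul_apply, ← pow_succ']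
      rw [hexp, mul_sub] at hpos
      have h5 := hq ε hε1 x
      have h6 : |s * b x ((Lε ^ m) x) - s * b x ((L ^ m) x)| ≤ C₂ * |ε| * nq x := by
        rw [← mul_sub, abs_mul, hs1, one_mul]
        exact h5
      have h7 := (abs_le.1 h6).2
      have h8 := hbl y w 1 one_pos
      have h9 : |s * b y w| ≤ B * (C₃ * C₁ + C₁) * nq x * |ε| := by
        rw [abs_mul, hs1, one_mul]
        have e3 : ε ^ 2 ≤ |ε| := by
          rw [← sq_abs]
          nlinarith [abs_nonneg ε]
        calc |b y w| ≤ B * (1 * nq y + nq w / 1) := h8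
          _ ≤ B * (C₃ * (C₁ * ε ^ 2 * nq x) + C₁ * ε ^ 2 * nq x) := by
            apply mul_le_mul_of_nonneg_left _ hB.le
            have := mul_le_mul_of_nonneg_left hnw hC₃.le
            rw [one_mul, div_one]
            linarith
          _ = B * (C₃ * C₁ + C₁) * nq x * ε ^ 2 := by ring
          _ ≤ _ := mul_le_mul_of_nonneg_left e3 (by positivity)
      have h10 := (abs_le.1 h9).1
      have h11 : (C₂ * nq x + B * (C₃ * C₁ + C₁) * nq x + 1) * |ε| =
          C₂ * |ε| * nq x + B * (C₃ * C₁ + C₁) * nq x * |ε| + |ε| := by ring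
      rw [h11]
      have := abs_nonneg ε
      linarith
  -- definiteness
  intro j hj x hx hx0 hne
  refine lt_of_le_of_ne (key j hj x hx hx0) fun h0 => hne ?_
  set m := n - 2 * j with hm
  set s : ℚ := (-1 : ℚ) ^ j with hs
  have hs0 : s ≠ 0 := pow_ne_zero _ (by norm_num)
  have hxx : b x ((L ^ m) x) = 0 := (mul_eq_zero.1 h0.symm).resolve_left hs0
  -- orthogonality to the primitive classes
  have horth : ∀ y ∈ A j, (L ^ (m + 1)) y = 0 → b x ((L ^ m) y) = 0 := by
    intro y hy hy0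
    by_contra hne'
    have hq : ∀ t : ℚ, 0 ≤ s * (b y ((L ^ m) y)) + 2 * t * (s * b x ((L ^ m) y)) := by
      intro t
      have h1 := key j hj (y + t • x) ((A j).add_mem hy ((A j).smul_mem _ hx))
        (by rw [map_add, map_smul, hy0, hx0, smul_zero, add_zero])
      have h2 : b (y + t • x) ((L ^ m) (y + t • x)) = b y ((L ^ m) y) + 2 * t * b x ((L ^ m) y) := by
        simp only [map_add, map_smul, LinearMap.add_apply, LinearMap.smul_apply, smul_eq_mul, hxx]
        have : b y ((L ^ m) x) = b x ((L ^ m) y) := by rw [← adj_pow hL, hb]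
        rw [this]
        ring
      rw [h2] at h1
      linarith
    have hz : s * b x ((L ^ m) y) ≠ 0 := mul_ne_zero hs0 hne'
    have h1 := hq (-(s * (b y ((L ^ m) y)) + 1) / (2 * (s * b x ((L ^ m) y))))
    have h2 : 2 * (-(s * (b y ((L ^ m) y)) + 1) / (2 * (s * b x ((L ^ m) y)))) *
        (s * b x ((L ^ m) y)) = -(s * (b y ((L ^ m) y)) + 1) := by
      field_simp
    rw [h2] at h1
    linarith
  have horth' : ∀ y ∈ A j, b x ((L ^ m) y) = 0 := by
    intro y hy
    rcases Nat.eq_zero_or_pos j with hj0 | hj0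
    · apply horth y hy
      apply htop
      have := pow_mem' hLA (m + 1) j y hy
      subst hj0
      rwa [show 0 + (m + 1) = n + 1 by omega] at this
    · obtain ⟨i, rfl⟩ : ∃ i, j = i + 1 := ⟨j - 1, by omega⟩
      have hi : 2 * i ≤ n := by omega
      have hmi : n - 2 * i = m + 2 := by omega
      obtain ⟨z, hz, hzy⟩ := surj_of_inj hnd (i := i) (k := m + 2) hi (by omega) (L ^ (m + 2))
        (fun x hx => pow_mem' hLA _ _ x hx)
        (fun x hx h0 => hHL i hi x hx (by rw [hmi]; exact h0)) ((L ^ (m + 1)) y)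
        (by
          have := pow_mem' hLA (m + 1) (i + 1) y hy
          rwa [show i + 1 + (m + 1) = n - i by omega] at this)
      have h1 := horth (y - L z) ((A (i + 1)).sub_mem hy (hLA i z hz)) (by
        rw [map_sub, ← Module.End.mul_apply, ← pow_succ, hzy, sub_self])
      rw [map_sub, map_sub, sub_eq_zero] at h1
      rw [h1, ← Module.End.mul_apply, ← pow_succ, ← adj_pow hL, hx0, map_zero,
        LinearMap.zero_apply]
  apply hnd j (by omega) x hx
  intro w hw
  obtain ⟨y, hy, rfl⟩ := surj_of_inj hnd (i := j) (k := m) hj (by omega) (L ^ m)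
    (fun x hx => pow_mem' hLA _ _ x hx) (fun x hx h0 => hHL j hj x hx h0) w hw
  exact horth' y hy

end Pool.Agent.V7H1.HS
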