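import Mathlib

/-!
# Quadratic forms on finite-dimensional rational vector spaces: bounds and the lemma of Finsler
-/

set_option autoImplicit false

namespace Pool.Agent.V7H1.HS

open Module

variable {F : Type*} [AddCommGroup F] [Module ℚ F] [FiniteDimensional ℚ F]
  {G : Type*} [AddCommGroup G] [Module ℚ G] [FiniteDimensional ℚ G]

/-- the sum of the squares of the coordinates -/
noncomputable def nq (x : F) : ℚ := ∑ i, ((finBasis ℚ F).repr x i) ^ 2

lemma nq_nonneg (x : F) : 0 ≤ nq x := Finset.sum_nonneg fun _ _ => sq_nonneg _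

lemma nq_eq_zero {x : F} (h : nq x = 0) : x = 0 := by
  have h1 : ∀ i, (finBasis ℚ F).repr x i = 0 := by
    intro i
    have := (Finset.sum_eq_zero_iff_of_nonneg (fun i _ => sq_nonneg _)).1 h i (Finset.mem_univ i)
    exact pow_eq_zero_iff (two_ne_zero) |>.1 this
  apply (finBasis ℚ F).repr.injective
  ext i
  rw [h1 i]; simp

lemma nq_pos {x : F} (h : x ≠ 0) : 0 < nq x :=
  lt_of_le_of_ne (nq_nonneg x) fun h0 => h (nq_eq_zero h0.symm)

lemma nq_zero : nq (0 : F) = 0 := by simp [nq]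

lemma nq_smul (c : ℚ) (x : F) : nq (c • x) = c ^ 2 * nq x := by
  simp only [nq, map_smul, Finsupp.smul_apply, smul_eq_mul, mul_pow, Finset.mul_sum]

lemma nq_neg (x : F) : nq (-x) = nq x := by
  have := nq_smul (-1) x
  simpa using this

lemma nq_add_le (x y : F) : nq (x + y) ≤ 2 * nq x + 2 * nq y := by
  simp only [nq, map_add, Finsupp.add_apply, Finset.mul_sum]
  rw [← Finset.sum_add_distrib]
  apply Finset.sum_le_sum
  intro i _
  nlinarith [sq_nonneg ((finBasis ℚ F).repr x i - (finBasis ℚ F).repr y i)]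

/-- bilinear forms are bounded -/
lemma bilin_le (e : F →ₗ[ℚ] G →ₗ[ℚ] ℚ) : ∃ C : ℚ, 0 < C ∧ ∀ (x : F) (y : G) (δ : ℚ), 0 < δ →
    |e x y| ≤ C * (δ * nq x + nq y / δ) := by
  set v := finBasis ℚ F
  set w := finBasis ℚ G
  set S : ℚ := ∑ i, ∑ j, |e (v i) (w j)| with hS
  have hS0 : 0 ≤ S := Finset.sum_nonneg fun _ _ => Finset.sum_nonneg fun _ _ => abs_nonneg _
  refine ⟨S + 1, by linarith, fun x y δ hδ => ?_⟩
  have hx : ∀ i, (v.repr x i) ^ 2 ≤ nq x := fun i =>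
    Finset.single_le_sum (f := fun i => (v.repr x i) ^ 2) (fun _ _ => sq_nonneg _)
      (Finset.mem_univ i)
  have hy : ∀ j, (w.repr y j) ^ 2 ≤ nq y := fun j =>
    Finset.single_le_sum (f := fun j => (w.repr y j) ^ 2) (fun _ _ => sq_nonneg _)
      (Finset.mem_univ j)
  have e1 : e x y = ∑ i, ∑ j, v.repr x i * w.repr y j * e (v i) (w j) := by
    conv_lhs => rw [← v.sum_repr x, ← w.sum_repr y]
    simp only [map_sum, LinearMap.sum_apply, map_smul, LinearMap.smul_apply, smul_eq_mul]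
    simp only [Finset.mul_sum]
    rw [Finset.sum_comm]
    refine Finset.sum_congr rfl fun i _ => Finset.sum_congr rfl fun j _ => ?_
    ring
  rw [e1]
  have hb : ∀ i j, |v.repr x i * w.repr y j * e (v i) (w j)| ≤
      |e (v i) (w j)| * (δ * nq x + nq y / δ) := by
    intro i j
    rw [abs_mul, mul_comm]
    apply mul_le_mul_of_nonneg_left _ (abs_nonneg _)
    have h1 : δ * (v.repr x i) ^ 2 ≤ δ * nq x := mul_le_mul_of_nonneg_left (hx i) hδ.le
    have h2 : (w.repr y j) ^ 2 / δ ≤ nq y / δ := div_le_div_of_nonneg_right (hy j) hδ.le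
    have h3 : |v.repr x i * w.repr y j| ≤ δ * (v.repr x i) ^ 2 + (w.repr y j) ^ 2 / δ := by
      set a := v.repr x i
      set c := w.repr y j
      have h4 : 0 ≤ (δ * |a| - |c|) ^ 2 := sq_nonneg _
      have h5 : 2 * δ * |a * c| ≤ δ ^ 2 * a ^ 2 + c ^ 2 := by
        rw [abs_mul]
        have ha : |a| ^ 2 = a ^ 2 := sq_abs a
        have hc : |c| ^ 2 = c ^ 2 := sq_abs c
        nlinarith
      have h6 : δ * a ^ 2 + c ^ 2 / δ = (δ ^ 2 * a ^ 2 + c ^ 2) / δ := by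
        field_simp
      rw [h6, le_div_iff₀ hδ]
      have : 0 ≤ |a * c| * δ := mul_nonneg (abs_nonneg _) hδ.le
      nlinarith
    linarith
  calc |∑ i, ∑ j, v.repr x i * w.repr y j * e (v i) (w j)|
      ≤ ∑ i, |∑ j, v.repr x i * w.repr y j * e (v i) (w j)| := Finset.abs_sum_le_sum_abs _ _
    _ ≤ ∑ i, ∑ j, |v.repr x i * w.repr y j * e (v i) (w j)| :=
        Finset.sum_le_sum fun i _ => Finset.abs_sum_le_sum_abs _ _
    _ ≤ ∑ i, ∑ j, |e (v i) (w j)| * (δ * nq x + nq y / δ) :=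
        Finset.sum_le_sum fun i _ => Finset.sum_le_sum fun j _ => hb i j
    _ = S * (δ * nq x + nq y / δ) := by
        rw [hS, Finset.sum_mul]
        exact Finset.sum_congr rfl fun i _ => (Finset.sum_mul _ _ _).symm
    _ ≤ _ := by
        apply mul_le_mul_of_nonneg_right (by linarith)
        have := nq_nonneg x
        have := nq_nonneg y
        positivity

/-- linear maps are bounded -/
lemma map_le (M : F →ₗ[ℚ] G) : ∃ C : ℚ, 0 < C ∧ ∀ x : F, nq (M x) ≤ C * nq x := by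
  set w := finBasis ℚ G
  set e : F →ₗ[ℚ] F →ₗ[ℚ] ℚ :=
    ∑ i, (LinearMap.mul ℚ ℚ).compl₁₂ ((w.coord i) ∘ₗ M) ((w.coord i) ∘ₗ M) with he
  obtain ⟨C, hC, h⟩ := bilin_le e
  refine ⟨2 * C, by linarith, fun x => ?_⟩
  have e1 : e x x = nq (M x) := by
    rw [he, nq]
    simp only [LinearMap.sum_apply, LinearMap.compl₁₂_apply, LinearMap.comp_apply,
      LinearMap.mul_apply', Basis.coord_apply, sq]
    rfl
  have := h x x 1 one_pos
  rw [e1, abs_of_nonneg (nq_nonneg _)] at this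
  linarith

/-- a positive definite form dominates every form -/
lemma dom (e : F →ₗ[ℚ] F →ₗ[ℚ] ℚ) (hs : ∀ x y, e x y = e y x) (hp : ∀ x, x ≠ 0 → 0 < e x x) :
    ∃ κ : ℚ, 0 < κ ∧ ∀ x, κ * nq x ≤ e x x := by
  have hsymm : LinearMap.IsSymm e := ⟨fun x y => by simpa using hs x y⟩
  obtain ⟨v, hv⟩ := LinearMap.BilinForm.exists_orthogonal_basis (B := e) hsymm
  have hv' : ∀ i j, i ≠ j → e (v i) (v j) = 0 := fun i j hij => hv hij
  -- the coordinates of `x` with respect to `v`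
  have hval : ∀ x, e x x = ∑ i, (v.repr x i) ^ 2 * e (v i) (v i) := by
    intro x
    conv_lhs => rw [← v.sum_repr x]
    simp only [map_sum, LinearMap.sum_apply, map_smul, LinearMap.smul_apply, smul_eq_mul]
    refine Finset.sum_congr rfl fun i _ => ?_
    rw [Finset.sum_eq_single i]
    · ring
    · intro j _ hj
      rw [hv' _ _ hj]; ring
    · intro h; exact absurd (Finset.mem_univ i) h
  -- bound for `nq`
  have hnq : ∃ C : ℚ, 0 < C ∧ ∀ x, nq x ≤ C * ∑ i, (v.repr x i) ^ 2 := by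
    obtain ⟨C, hC, h⟩ := map_le (v.equivFun.symm : (Fin (finrank ℚ F) → ℚ) →ₗ[ℚ] F)
    obtain ⟨C', hC', h'⟩ : ∃ C' : ℚ, 0 < C' ∧ ∀ c : Fin (finrank ℚ F) → ℚ, nq c ≤ C' * ∑ i, c i ^ 2 := by
      set w := finBasis ℚ (Fin (finrank ℚ F) → ℚ)
      set S : ℚ := ∑ k, (∑ i, |w.repr (Pi.single i (1 : ℚ)) k|) ^ 2 with hS
      have hS0 : 0 ≤ S := Finset.sum_nonneg fun _ _ => sq_nonneg _
      refine ⟨S + 1, by linarith, fun c => ?_⟩
      have hT0 : 0 ≤ ∑ i, c i ^ 2 := Finset.sum_nonneg fun _ _ => sq_nonneg _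
      have h1 : ∀ k, (w.repr c k) ^ 2 ≤ (∑ i, |w.repr (Pi.single i (1 : ℚ)) k|) ^ 2 *
          ∑ i, c i ^ 2 := by
        intro k
        have e2 : w.repr c k = ∑ i, c i * w.repr (Pi.single i (1 : ℚ)) k := by
          have e3 : c = ∑ i, c i • (Pi.single i (1 : ℚ) : Fin (finrank ℚ F) → ℚ) := by
            ext j
            simp [Finset.sum_apply, Pi.single_apply]
          conv_lhs => rw [e3]
          simp only [map_sum, map_smul, Finsupp.coe_finsetSum, Finset.sum_apply,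
            Finsupp.smul_apply, smul_eq_mul]
        set a : Fin (finrank ℚ F) → ℚ := fun i => w.repr (Pi.single i (1 : ℚ)) k with ha
        have h3 : (∑ i, c i * a i) ^ 2 ≤ (∑ i, c i ^ 2) * ∑ i, a i ^ 2 :=
          Finset.sum_mul_sq_le_sq_mul_sq _ _ _
        have h4 : ∑ i, a i ^ 2 ≤ (∑ i, |a i|) ^ 2 := by
          have h40 : 0 ≤ ∑ i, |a i| := Finset.sum_nonneg fun _ _ => abs_nonneg _
          have h41 : ∀ i, a i ^ 2 ≤ |a i| * ∑ i, |a i| := fun i => by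
            have : |a i| ≤ ∑ i, |a i| :=
              Finset.single_le_sum (f := fun i => |a i|) (fun _ _ => abs_nonneg _)
                (Finset.mem_univ i)
            calc a i ^ 2 = |a i| * |a i| := by rw [← sq_abs, sq]
              _ ≤ _ := mul_le_mul_of_nonneg_left this (abs_nonneg _)
          calc ∑ i, a i ^ 2 ≤ ∑ i, |a i| * ∑ i, |a i| := Finset.sum_le_sum fun i _ => h41 i
            _ = _ := by rw [← Finset.sum_mul, sq]
        rw [e2]
        calc (∑ i, c i * a i) ^ 2 ≤ (∑ i, c i ^ 2) * ∑ i, a i ^ 2 := h3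
          _ ≤ (∑ i, c i ^ 2) * (∑ i, |a i|) ^ 2 := mul_le_mul_of_nonneg_left h4 hT0
          _ = _ := by ring
      calc nq c = ∑ k, (w.repr c k) ^ 2 := rfl
        _ ≤ ∑ k, (∑ i, |w.repr (Pi.single i (1 : ℚ)) k|) ^ 2 * ∑ i, c i ^ 2 :=
            Finset.sum_le_sum fun k _ => h1 k
        _ = S * ∑ i, c i ^ 2 := by rw [hS, Finset.sum_mul]
        _ ≤ _ := mul_le_mul_of_nonneg_right (by linarith) hT0
    refine ⟨C * C', by positivity, fun x => ?_⟩
    have e4 : (v.equivFun.symm : (Fin (finrank ℚ F) → ℚ) →ₗ[ℚ] F) (fun i => v.repr x i) = x := by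
      have : (fun i => v.repr x i) = v.equivFun x := by ext i; simp
      rw [this]; simp
    calc nq x = nq ((v.equivFun.symm : (Fin (finrank ℚ F) → ℚ) →ₗ[ℚ] F) (fun i => v.repr x i)) := by rw [e4]
      _ ≤ C * nq (fun i => v.repr x i) := h _
      _ ≤ C * (C' * ∑ i, (v.repr x i) ^ 2) := mul_le_mul_of_nonneg_left (h' _) hC.le
      _ = _ := by ring
  obtain ⟨C, hC, hCx⟩ := hnq
  obtain ⟨m, hm, hmi⟩ : ∃ m : ℚ, 0 < m ∧ ∀ i, m ≤ e (v i) (v i) := by
    rcases isEmpty_or_nonempty (Fin (finrank ℚ F)) with hne | hne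
    · exact ⟨1, one_pos, fun i => (hne.false i).elim⟩
    · obtain ⟨i₀, _, hi₀⟩ := Finset.exists_min_image Finset.univ (fun i => e (v i) (v i))
        ⟨Classical.arbitrary _, Finset.mem_univ _⟩
      exact ⟨e (v i₀) (v i₀), hp _ (v.ne_zero _), fun i => hi₀ i (Finset.mem_univ i)⟩
  refine ⟨m / C, by positivity, fun x => ?_⟩
  rw [hval]
  have h5 : m * ∑ i, (v.repr x i) ^ 2 ≤ ∑ i, (v.repr x i) ^ 2 * e (v i) (v i) := by
    rw [Finset.mul_sum]
    refine Finset.sum_le_sum fun i _ => ?_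
    rw [mul_comm]
    exact mul_le_mul_of_nonneg_left (hmi i) (sq_nonneg _)
  have h6 := hCx x
  calc m / C * nq x ≤ m / C * (C * ∑ i, (v.repr x i) ^ 2) :=
        mul_le_mul_of_nonneg_left h6 (by positivity)
    _ = m * ∑ i, (v.repr x i) ^ 2 := by field_simp
    _ ≤ _ := h5

/-- **The lemma of Finsler**: a form which is positive on the kernel of `M` becomes positive
definite after the addition of a multiple of `|M x|²`. -/
theorem finsler (q : F →ₗ[ℚ] F →ₗ[ℚ] ℚ) (hs : ∀ x y, q x y = q y x) (M : F →ₗ[ℚ] G)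
    (hp : ∀ x, M x = 0 → x ≠ 0 → 0 < q x x) :
    ∃ κ C : ℚ, 0 < κ ∧ 0 < C ∧ ∀ x, κ * nq x ≤ q x x + C * nq (M x) := by
  obtain ⟨K, hK⟩ := Submodule.exists_isCompl (LinearMap.ker M)
  -- on the kernel
  obtain ⟨κ₀, hκ₀, h0⟩ := dom (q.compl₁₂ (LinearMap.ker M).subtype (LinearMap.ker M).subtype)
    (fun x y => hs _ _) (fun x hx => hp _ x.2 fun h => hx (Subtype.ext h))
  obtain ⟨C₀, hC₀, hC0⟩ := map_le (LinearMap.ker M).subtype
  -- on the complement
  set g : K →ₗ[ℚ] G := M ∘ₗ K.subtype with hg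
  set w := finBasis ℚ G
  set e : K →ₗ[ℚ] K →ₗ[ℚ] ℚ :=
    ∑ i, (LinearMap.mul ℚ ℚ).compl₁₂ ((w.coord i) ∘ₗ g) ((w.coord i) ∘ₗ g) with he
  have e1 : ∀ x, e x x = nq (g x) := by
    intro x
    rw [he, nq]
    simp only [LinearMap.sum_apply, LinearMap.compl₁₂_apply, LinearMap.comp_apply,
      LinearMap.mul_apply', Basis.coord_apply, sq]
    rfl
  obtain ⟨κ₁, hκ₁, h1⟩ := dom e (fun x y => by
      rw [he]
      simp only [LinearMap.sum_apply, LinearMap.compl₁₂_apply, LinearMap.mul_apply']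
      exact Finset.sum_congr rfl fun i _ => mul_comm _ _) (fun x hx => by
      rw [e1]
      apply nq_pos
      intro hx0
      apply hx
      have h2 : (x : F) ∈ LinearMap.ker M ⊓ K := ⟨hx0, x.2⟩
      rw [hK.inf_eq_bot] at h2
      exact Subtype.ext ((Submodule.mem_bot _).1 h2))
  obtain ⟨C₁, hC₁, hC1⟩ := map_le K.subtype
  obtain ⟨B, hB, hBq⟩ := bilin_le q
  -- constants: `nq x₀ ≤ a q x₀ x₀` and `nq x₁ ≤ c nq (M x₁)`
  set a : ℚ := C₀ / κ₀ with ha
  set c : ℚ := C₁ / κ₁ with hc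
  have ha0 : 0 < a := by positivity
  have hc0 : 0 < c := by positivity
  set δ : ℚ := 1 / (4 * B * a) with hδ
  have hδ0 : 0 < δ := by positivity
  -- final constants
  refine ⟨1 / (4 * a), (2 * B / δ + 2 * B + 1 / (2 * a)) * c, by positivity, by positivity,
    fun x => ?_⟩
  have hx : x ∈ LinearMap.ker M ⊔ K := by rw [hK.sup_eq_top]; trivial
  obtain ⟨x₀, hx₀, x₁, hx₁, rfl⟩ := Submodule.mem_sup.1 hx
  have hM0 : M x₀ = 0 := hx₀
  have g0 : nq x₀ ≤ a * q x₀ x₀ := by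
    have t1 := h0 ⟨x₀, hx₀⟩
    have t2 := hC0 ⟨x₀, hx₀⟩
    simp only [LinearMap.compl₁₂_apply, Submodule.coe_subtype] at t1 t2
    rw [ha]
    calc nq x₀ ≤ C₀ * nq (⟨x₀, hx₀⟩ : LinearMap.ker M) := t2
      _ = C₀ / κ₀ * (κ₀ * nq (⟨x₀, hx₀⟩ : LinearMap.ker M)) := by field_simp
      _ ≤ _ := mul_le_mul_of_nonneg_left t1 (by positivity)
  have g1 : nq x₁ ≤ c * nq (M x₁) := by
    have t1 := h1 ⟨x₁, hx₁⟩
    have t2 := hC1 ⟨x₁, hx₁⟩
    rw [e1] at t1
    simp only [hg, LinearMap.comp_apply, Submodule.coe_subtype] at t1 t2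
    rw [hc]
    calc nq x₁ ≤ C₁ * nq (⟨x₁, hx₁⟩ : K) := t2
      _ = C₁ / κ₁ * (κ₁ * nq (⟨x₁, hx₁⟩ : K)) := by field_simp
      _ ≤ _ := mul_le_mul_of_nonneg_left t1 (by positivity)
  have g2 := hBq x₀ x₁ δ hδ0
  have g3 := hBq x₁ x₁ 1 one_pos
  have g4 := nq_add_le x₀ x₁
  have n0 := nq_nonneg x₀
  have n1 := nq_nonneg x₁
  rw [abs_le] at g2 g3
  have hq : q (x₀ + x₁) (x₀ + x₁) = q x₀ x₀ + 2 * q x₀ x₁ + q x₁ x₁ := by
    simp only [map_add, LinearMap.add_apply, hs x₁ x₀]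
    ring
  have hMx : M (x₀ + x₁) = M x₁ := by rw [map_add, hM0, zero_add]
  rw [hq, hMx]
  have hδB : B * (δ * nq x₀) = nq x₀ / (4 * a) := by
    rw [hδ]; field_simp
  have g0' : nq x₀ / a ≤ q x₀ x₀ := by
    rw [div_le_iff₀ ha0]; linarith
  have g1' : (2 * B / δ + 2 * B + 1 / (2 * a)) * nq x₁ ≤
      (2 * B / δ + 2 * B + 1 / (2 * a)) * c * nq (M x₁) := by
    rw [mul_assoc]
    exact mul_le_mul_of_nonneg_left g1 (by positivity)
  have e2 : (2 * B / δ + 2 * B + 1 / (2 * a)) * nq x₁ =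
      2 * (B * (nq x₁ / δ)) + 2 * (B * nq x₁) + nq x₁ / (2 * a) := by
    field_simp
  have e3 : nq x₀ / a = 4 * (nq x₀ / (4 * a)) := by field_simp
  have e4 : 1 / (4 * a) * nq (x₀ + x₁) ≤ 2 * (nq x₀ / (4 * a)) + nq x₁ / (2 * a) := by
    calc 1 / (4 * a) * nq (x₀ + x₁) ≤ 1 / (4 * a) * (2 * nq x₀ + 2 * nq x₁) :=
          mul_le_mul_of_nonneg_left g4 (by positivity)
      _ = _ := by field_simp; ring
  have e5 : B * (δ * nq x₀ + nq x₁ / δ) = nq x₀ / (4 * a) + B * (nq x₁ / δ) := by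
    rw [mul_add, hδB]
  rw [e5] at g2
  have e6 : B * (1 * nq x₁ + nq x₁ / 1) = 2 * (B * nq x₁) := by ring
  rw [e6] at g3
  have p0 : 0 ≤ nq x₀ / (4 * a) := by positivity
  linarith [g2.1, g3.1]

end Pool.Agent.V7H1.HS
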