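import Pool.Agent.V7H1.HS.Alg
import Pool.Agent.H914R2.StdDefs

/-!
# The standard conjecture of Hodge type is open in the divisor, and closed where hard Lefschetz holds
-/

set_option autoImplicit false

open CategoryTheory AlgebraicGeometry

universe u v

namespace Pool.Agent.V7H1.HS

open Pool.Agent.H914 Pool.Agent.H914.VarClass Pool.Agent.H914.VarClass.Obj
  Pool.Agent.H914.WeilCohomology Module

section Lin

variable {V : Type*} [AddCommGroup V] [Module ℚ V]

/-- restriction of an operator to a stable subspace -/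
noncomputable def resEnd (T : Submodule ℚ V) (L : Module.End ℚ V) (h : ∀ x ∈ T, L x ∈ T) :
    Module.End ℚ T := L.restrict h

lemma resEnd_pow {T : Submodule ℚ V} {L : Module.End ℚ V} (h : ∀ x ∈ T, L x ∈ T) (m : ℕ) (x : T) :
    (((resEnd T L h) ^ m) x : V) = (L ^ m) x := by
  induction m with
  | zero => rfl
  | succ m ih =>
    rw [pow_succ', pow_succ', Module.End.mul_apply, Module.End.mul_apply, ← ih]
    rfl

lemma HR_restrict {A : ℕ → Submodule ℚ V} {T : Submodule ℚ V} (hAT : ∀ j, A j ≤ T) {n : ℕ}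
    {b : V →ₗ[ℚ] V →ₗ[ℚ] ℚ} {L : Module.End ℚ V} (h : ∀ x ∈ T, L x ∈ T) :
    HR A n b L ↔ HR (fun j => (A j).comap T.subtype) n (b.compl₁₂ T.subtype T.subtype)
      (resEnd T L h) := by
  constructor
  · rintro hR j hj x hx h0 hne
    have := hR j hj x.1 hx (by rw [← resEnd_pow h, h0]; rfl) (fun h1 => hne (Subtype.ext h1))
    rw [← resEnd_pow h] at this
    exact this
  · rintro hR j hj x hx h0 hne
    have := hR j hj ⟨x, hAT j hx⟩ hx (Subtype.ext (by rw [resEnd_pow]; exact h0))
      (fun h1 => hne (congrArg Subtype.val h1))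
    rw [LinearMap.compl₁₂_apply, Submodule.subtype_apply, Submodule.subtype_apply,
      resEnd_pow] at this
    exact this

end Lin

variable {k : Type u} [Field k] {𝒱 : VarClass k} {ops : CycleOps 𝒱}
  {W : WeilCohomology.{u, v} ops} {X : 𝒱.Obj}

attribute [local instance] ratMod

/-- hard Lefschetz for the algebraic classes (injectivity) -/
def AlgLef (W : WeilCohomology.{u, v} ops) (X : 𝒱.Obj) (D : X.Cycles) : Prop :=
  ∀ j, 2 * j ≤ X.dim → ∀ z, X.IsCyc j z → W.cl X (divPow ops D (X.dim - 2 * j) z) = 0 →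
    W.cl X z = 0

lemma isCyc_add {D E : X.Cycles} {p : ℕ} (hD : X.IsCyc p D) (hE : X.IsCyc p E) (ε : ℚ) :
    X.IsCyc p (D + ε • E) := hD.add (hE.smul ε)

lemma opL_all {D : X.Cycles} (hD : X.IsCyc 1 D) (x : W.H X) (hx : x ∈ algAll W X) :
    opL W X D x ∈ algAll W X := by
  refine algAll_induction (p := fun x => opL W X D x ∈ algAll W X) ?_ ?_ ?_ hx
  · rw [map_zero]; exact Submodule.zero_mem _
  · intro x y h h'
    rw [map_add]; exact Submodule.add_mem _ h h'
  · intro j x hx
    exact algSub_le _ (opL_mem hD j x hx)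

lemma finite_algAll (h : HomEqNum W X) : FiniteDimensional ℚ (algAll W X) := by
  have := fun j : Fin (X.dim + 1) => finite_algSub h (j : ℕ)
  unfold algAll
  infer_instance

lemma resEnd_add {D E : X.Cycles} (hD : X.IsCyc 1 D) (hE : X.IsCyc 1 E) (ε : ℚ) :
    resEnd (algAll W X) (opL W X (D + ε • E)) (opL_all (isCyc_add hD hE ε)) =
      resEnd (algAll W X) (opL W X D) (opL_all hD) +
        ε • resEnd (algAll W X) (opL W X E) (opL_all hE) := by
  apply LinearMap.ext
  intro x
  apply Subtype.ext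
  change opL W X (D + ε • E) x.1 = opL W X D x.1 + ε • opL W X E x.1
  rw [opL_add]
  rfl

/-- **The standard conjecture of Hodge type is open in the divisor.** -/
theorem hodge_open (hN : HomEqNum W X) {D E : X.Cycles} (hD : X.IsCyc 1 D) (hE : X.IsCyc 1 E)
    (h : HodgeType W X D) :
    ∃ ε₀ : ℚ, 0 < ε₀ ∧ ∀ ε : ℚ, |ε| < ε₀ → HodgeType W X (D + ε • E) := by
  have := finite_algAll hN
  rw [hodgeType_iff D hD, HR_restrict algSub_le (opL_all hD)] at h
  obtain ⟨ε₀, h0, h1⟩ := open_HR _ _ _ _ (resEnd (algAll W X) (opL W X E) (opL_all hE))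
    (fun x y => form_comm_alg x.2 y.1) (fun x y => form_adj hD x.1 y.1) h
  refine ⟨ε₀, h0, fun ε hε => ?_⟩
  rw [hodgeType_iff _ (isCyc_add hD hE ε), HR_restrict algSub_le (opL_all (isCyc_add hD hE ε)),
    resEnd_add hD hE]
  exact h1 ε hε

/-- **The standard conjecture of Hodge type is closed where hard Lefschetz holds.** -/
theorem hodge_closed (hN : HomEqNum W X) {D E : X.Cycles} (hD : X.IsCyc 1 D) (hE : X.IsCyc 1 E)
    (hL : AlgLef W X D)
    (h : ∀ δ : ℚ, 0 < δ → ∃ ε : ℚ, |ε| < δ ∧ HodgeType W X (D + ε • E)) : HodgeType W X D := by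
  have := finite_algAll hN
  rw [hodgeType_iff D hD, HR_restrict algSub_le (opL_all hD)]
  refine closed_HR _ _ _ _ (resEnd (algAll W X) (opL W X E) (opL_all hE))
    (fun x y => form_comm_alg x.2 y.1) (fun x y => form_adj hD x.1 y.1)
    (fun x y => form_adj hE x.1 y.1) (fun j x hx => opL_mem hD j x.1 hx)
    (fun j x hx => opL_mem hE j x.1 hx)
    (fun x hx => Subtype.ext (algSub_top (j := X.dim + 1) (Nat.lt_succ_self _) hx)) ?_ ?_ ?_
  · intro j hj x hx h0
    apply Subtype.ext
    apply homEqNum_iff.1 hN j hj x.1 hx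
    intro y hy
    exact h0 ⟨y, algSub_le _ hy⟩ hy
  · intro j hj x hx h0
    apply Subtype.ext
    obtain ⟨z, hz, hzx⟩ := (hx : x.1 ∈ algSub W X j)
    change W.cl X z = x.1 at hzx
    have h1 := congrArg Subtype.val h0
    rw [resEnd_pow, ← hzx, opL_pow] at h1
    rw [← hzx]
    exact hL j hj z hz h1
  · intro δ hδ
    obtain ⟨ε, hε, h1⟩ := h δ hδ
    refine ⟨ε, hε, ?_⟩
    rw [hodgeType_iff _ (isCyc_add hD hE ε), HR_restrict algSub_le (opL_all (isCyc_add hD hE ε)),
      resEnd_add hD hE] at h1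
    exact h1

lemma mulLeft_pow_cl (D z : X.Cycles) (m : ℕ) :
    ((LinearMap.mulLeft W.K (W.cl X D)) ^ m) (W.cl X z) = W.cl X (divPow ops D m z) := by
  induction m with
  | zero => rfl
  | succ m ih =>
    rw [pow_succ', Module.End.mul_apply, ih, LinearMap.mulLeft_apply, divPow, divPow,
      Function.iterate_succ_apply', W.cl_mul]

lemma algLef_of_hard {D : X.Cycles} (h : HardLefschetz W X D) : AlgLef W X D := by
  intro j hj z hz h0
  refine (h (2 * j) hj).1 _ (W.cl_mem hz) ?_
  rw [← h0]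
  exact mulLeft_pow_cl D z _

/-- the conjecture of Hodge type implies hard Lefschetz for algebraic classes -/
lemma algLef_of_hodge {D : X.Cycles} (hD : X.IsCyc 1 D) (h : HodgeType W X D) :
    AlgLef W X D := by
  intro j hj z hz h0
  by_contra hne
  rw [hodgeType_iff D hD] at h
  have h1 := h j hj (W.cl X z) ⟨z, hz, rfl⟩ (by
    rw [pow_succ', Module.End.mul_apply, opL_pow, h0, map_zero]) hne
  rw [opL_pow, h0, map_zero, mul_zero] at h1
  exact lt_irrefl _ h1

end Pool.Agent.V7H1.HS
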