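import Pool.Agent.H914R2.HodgeDefs

/-!
# Semismall decompositions with integral coefficients: definitions
-/

set_option autoImplicit false

open CategoryTheory AlgebraicGeometry

universe u v

namespace Pool.Agent.V7H1.HS

open Pool.Agent.H914 Pool.Agent.H914.VarClass Pool.Agent.H914.VarClass.Obj
  Pool.Agent.H914.WeilCohomology

variable {k : Type u} [Field k] {𝒱 : VarClass k} {ops : CycleOps 𝒱}

/-- The cycle `z` is homologically equivalent to zero. -/
def Null (W : WeilCohomology.{u, v} ops) {X : 𝒱.Obj} (z : X.Cycles) : Prop := W.cl X z = 0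

/-- Homological and numerical equivalence are the same on `X`. -/
def HomNum (W : WeilCohomology.{u, v} ops) (X : 𝒱.Obj) : Prop :=
  ∀ j ≤ X.dim, ∀ z, X.IsCyc j z →
    (∀ w, X.IsCyc (X.dim - j) w → X.V.degCycle (ops.mul z w) = 0) → Null W z

/-- The standard conjecture of Hodge type for `X` and the divisor `D`: for `2 j ≤ n = dim X` and
every cycle `z` of codimension `j` whose class is primitive and not zero, the sign of the
intersection number `z · z · D ^ (n - 2 j)` is `(-1) ^ j`. -/
def HodgeFor (W : WeilCohomology.{u, v} ops) (X : 𝒱.Obj) (D : X.Cycles) : Prop :=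
  ∀ j, 2 * j ≤ X.dim → ∀ z, X.IsCyc j z → Null W (divPow ops D (X.dim - 2 * j + 1) z) →
    ¬ Null W z → 0 < (-1 : ℚ) ^ j * X.V.degCycle (ops.mul z (divPow ops D (X.dim - 2 * j) z))

/-- The action `γ_*` of a correspondence `γ` on `Z × Y` from the cycles on `Z` to the cycles
on `Y`. -/
noncomputable def fwd (ops : CycleOps 𝒱) {Z Y : 𝒱.Obj} (γ : (Z.prod Y).Cycles) (x : Z.Cycles) :
    Y.Cycles :=
  ops.push (snd Z Y) (ops.mul γ (ops.pull (fst Z Y) x))

/-- The action `γ^*` of the transposed correspondence, from the cycles on `Y` to the cycles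
on `Z`. -/
noncomputable def bwd (ops : CycleOps 𝒱) {Z Y : 𝒱.Obj} (γ : (Z.prod Y).Cycles) (y : Y.Cycles) :
    Z.Cycles :=
  ops.push (fst Z Y) (ops.mul γ (ops.pull (snd Z Y) y))

/-- A decomposition of the algebraic classes on `Y` as for a semismall morphism `f : Y ⟶ Y₀` and
the divisor `A = f^* A₀`. There are finitely many varieties `Z a` with divisors `D a` (finite
over the closures of the relevant strata of `Y₀`, with the pull-back of `A₀`), codimensions `c a`
with `dim Y = dim (Z a) + 2 c a`, and correspondences `γ a` on `Z a × Y` (the families of the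
components of the fibres of `f`) and positive integers `m a`, `M`, such that

* the divisors `D a × Y` and `Z a × A` agree on `γ a`;
* `γ_b^* γ_a_* = 0` on algebraic classes, for `a ≠ b`;
* the sum of all `(-1) ^ (c a) (m a) γ_a_* γ_a^*` is the multiplication by `M` on algebraic classes.

The sign `(-1) ^ (c a)` is that of the intersection numbers of the fibres. -/
structure IsSemismall (W : WeilCohomology.{u, v} ops) {Y : 𝒱.Obj} (A : Y.Cycles) {ι : Type}
    [Fintype ι] {Z : ι → 𝒱.Obj} (D : ∀ a, (Z a).Cycles) (c m : ι → ℕ) (M : ℕ)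
    (γ : ∀ a, ((Z a).prod Y).Cycles) : Prop where
  dim_eq : ∀ a, Y.dim = (Z a).dim + 2 * c a
  isDiv : ∀ a, (Z a).IsCyc 1 (D a)
  codim : ∀ a, ((Z a).prod Y).IsCyc ((Z a).dim + c a) (γ a)
  pos : 0 < M ∧ ∀ a, 0 < m a
  agree : ∀ a, Null W (ops.mul (ops.pull (fst (Z a) Y) (D a)) (γ a) -
    ops.mul (ops.pull (snd (Z a) Y) A) (γ a))
  orth : ∀ a b, a ≠ b → ∀ i x, (Z a).IsCyc i x → Null W (bwd ops (γ b) (fwd ops (γ a) x))
  sum : ∀ j y, Y.IsCyc j y →
    Null W (M • y - ∑ a, ((-1 : ℤ) ^ c a * m a) • fwd ops (γ a) (bwd ops (γ a) y))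

end Pool.Agent.V7H1.HS
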