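import Pool.Agent.V7H1.HS.Main
import Pool.Agent.N179.HT.Asm

/-!
# The conjecture of Hodge type for Hilbert schemes of points of K3 surfaces over finite fields
-/

set_option autoImplicit false

open CategoryTheory AlgebraicGeometry NumberField

universe u v

namespace Pool.Agent.V7H1.HS

open Pool.Agent.H914 Pool.Agent.H914.VarClass Pool.Agent.H914.VarClass.Obj
  Pool.Agent.H914.WeilCohomology Pool.Agent.W534 Pool.Agent.TH121.KT Pool.Agent.W517.K3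
  Pool.Agent.W552 Pool.Agent.H281R3.HT Pool.Agent.N179.TL Pool.Agent.N179.HT

lemma isolated_mono {r : ℕ} {Γ : Set ℚ} {h n n' : Fin r → ℕ} (hn : ∀ i, n' i ≤ n i) {i : Fin r}
    (hi : Isolated Γ h n i) : Isolated Γ h n' i := fun a ha hs =>
  hi a (fun j => (ha j).trans (by exact_mod_cast hn j)) hs

lemma goodN_mono {d m n n' : ℕ} (hn : n' ≤ n) (h : GoodN d m n) : GoodN d m n' := by
  rcases h with h | ⟨h1, h2 | h2⟩
  · exact Or.inl (hn.trans h)
  · exact Or.inr ⟨h1, Or.inl ⟨hn.trans h2.1, h2.2⟩⟩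
  · exact Or.inr ⟨h1, Or.inr h2⟩

lemma admissible_mono {r : ℕ} {Γ : Set ℚ} {h b d m n n' : Fin r → ℕ} (hn : ∀ i, n' i ≤ n i)
    (hA : Admissible Γ h b d m n) : Admissible Γ h b d m n' := by
  have key : ∀ i, ¬ Isolated Γ h n' i → ¬ Isolated Γ h n i := fun i hi h' =>
    hi (isolated_mono hn h')
  refine ⟨fun i _ => ?_, fun i hi => ?_, ?_⟩
  · by_cases h1 : Isolated Γ h n i
    · exact goodN_mono (hn i) (hA.good i h1)
    · exact Or.inl (((hn i).trans (hA.linked i h1).2.1).trans (by norm_num))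
  · obtain ⟨h1, h2, h3, h4, h5⟩ := hA.linked i (key i hi)
    exact ⟨h1, (hn i).trans h2, h3, h4, fun j hj => h5 j (key j hj)⟩
  · rintro ⟨i, j, l, h1, h2, h3⟩
    exact hA.exc ⟨i, j, l, ⟨key i h1.1, h1.2⟩, ⟨key j h2.1, h2.2⟩, ⟨key l h3.1, h3.2⟩⟩

variable {k : Type u} [Field k] {𝒱 : VarClass k} {ops : CycleOps 𝒱}
  {W : WeilCohomology.{u, v} ops}

lemma nest_cyc : ∀ (n : ℕ) (P : Fin (n + 1) → Polarized 𝒱), (∀ a, (P a).X.IsCyc 1 (P a).D) →
    (nest ops n P).X.IsCyc 1 (nest ops n P).D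
  | 0, P, h => h 0
  | n + 1, P, h => SmVar.IsCyc.add (ops.pull_mem _ (h 0))
      (ops.pull_mem _ (nest_cyc n (fun i => P i.succ) fun i => h i.succ))

/-- Varieties with a decomposition into pieces which satisfy the two conjectures. -/
theorem of_pieces {Y : 𝒱.Obj} {A : Y.Cycles} (hA : Y.IsCyc 1 A) {ι : Type*} [Fintype ι]
    {Z : ι → 𝒱.Obj} {D : ∀ a, (Z a).Cycles} {c : ι → ℕ} {κ : ι → ℚ}
    {γ : ∀ a, ((Z a).prod Y).Cycles} (h : SemismallDecomposition W Y A Z D c κ γ)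
    (hN : ∀ a, HomEqNum W (Z a)) (hH : ∀ a, HodgeType W (Z a) (D a)) :
    HomEqNum W Y ∧ HodgeType W Y A ∧ ∀ E : Y.Cycles, Y.IsCyc 1 E →
      ∃ ε₀ : ℚ, 0 < ε₀ ∧ ∀ ε : ℚ, |ε| < ε₀ → HodgeType W Y (A + ε • E) := by
  have h1 : HomEqNum W Y := (homEqNum_iff' hA h).2 fun a j hj z hz _ h0 => hN a j hj z hz h0
  have h2 : HodgeType W Y A := (hodge_iff hA h).2 fun a j hj z hz _ h0 h1 => hH a j hj z hz h0 h1
  exact ⟨h1, h2, fun E hE => hodge_open h1 hA hE h2⟩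

end Pool.Agent.V7H1.HS
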