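import Pool.Agent.V7H1.HS.Hilb
import Pool.Agent.V7H1.HS.HDefs

/-!
# Semismall decompositions with integral coefficients
-/

set_option autoImplicit false

open CategoryTheory AlgebraicGeometry

universe u v

namespace Pool.Agent.V7H1.HS

open Pool.Agent.H914 Pool.Agent.H914.VarClass Pool.Agent.H914.VarClass.Obj
  Pool.Agent.H914.WeilCohomology Pool.Agent.W534 Pool.Agent.H281R3.HT

variable {k : Type u} [Field k] {𝒱 : VarClass k} {ops : CycleOps 𝒱}
  {W : WeilCohomology.{u, v} ops}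

lemma null_sub {X : 𝒱.Obj} {z z' : X.Cycles} (h : Null W (z - z')) : W.cl X z = W.cl X z' := by
  have h1 : W.cl X (z - z') = 0 := h
  rwa [map_sub, sub_eq_zero] at h1

lemma IsSemismall.toDec {Y : 𝒱.Obj} {A : Y.Cycles} {ι : Type} [Fintype ι] {Z : ι → 𝒱.Obj}
    {D : ∀ a, (Z a).Cycles} {c m : ι → ℕ} {M : ℕ} {γ : ∀ a, ((Z a).prod Y).Cycles}
    (h : IsSemismall W A D c m M γ) :
    SemismallDecomposition W Y A Z D c (fun a => (M : ℚ) / m a) γ where
  dim_eq := h.dim_eq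
  isDiv := h.isDiv
  codim := h.codim
  pos := fun a => div_pos (by exact_mod_cast h.pos.1) (by exact_mod_cast h.pos.2 a)
  agree := fun a => null_sub (h.agree a)
  orth := fun a b hab i x hx => h.orth a b hab i x hx
  sum := fun j y hy => by
    have h1 := null_sub (h.sum j y hy)
    have hM : (M : ℚ) ≠ 0 := by exact_mod_cast h.pos.1.ne'
    have h2 : M • W.cl Y y = M • W.cl Y (∑ a, ((-1 : ℚ) ^ c a * ((M : ℚ) / m a)⁻¹) •
        forth ops (γ a) (back ops (γ a) y)) := by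
      rw [← map_nsmul, h1, ← map_nsmul, Finset.smul_sum]
      congr 1
      refine Finset.sum_congr rfl fun a _ => ?_
      rw [← Nat.cast_smul_eq_nsmul ℚ M, smul_smul, ← Int.cast_smul_eq_zsmul ℚ]
      have hm : (m a : ℚ) ≠ 0 := by exact_mod_cast (h.pos.2 a).ne'
      have h4 : (M : ℚ) * ((-1 : ℚ) ^ c a * ((M : ℚ) / m a)⁻¹) =
          (((-1 : ℤ) ^ c a * (m a : ℤ) : ℤ) : ℚ) := by
        push_cast
        field_simp
      rw [h4]
      rfl
    have h3 := congrArg (fun x => ((M : W.K)⁻¹) • x) h2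
    have hMK : (M : W.K) ≠ 0 := by exact_mod_cast h.pos.1.ne'
    simp only [← Nat.cast_smul_eq_nsmul W.K M, smul_smul, inv_mul_cancel₀ hMK, one_smul] at h3
    exact h3

lemma homNum_iff {X : 𝒱.Obj} : HomNum W X ↔ HomEqNum W X := Iff.rfl

lemma hodgeFor_iff {X : 𝒱.Obj} {D : X.Cycles} : HodgeFor W X D ↔ HodgeType W X D := Iff.rfl

attribute [local instance] ratMod

lemma HR.smul {V : Type*} [AddCommGroup V] [Module ℚ V] {A : ℕ → Submodule ℚ V} {n : ℕ}
    {β : V →ₗ[ℚ] V →ₗ[ℚ] ℚ} {L : V →ₗ[ℚ] V} (h : HR A n β L) {t : ℚ} (ht : 0 < t) :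
    HR A n β (t • L) := by
  intro j hj x hx h0 hne
  rw [smul_pow, LinearMap.smul_apply] at h0
  have h1 := (smul_eq_zero.1 h0).resolve_left (by positivity)
  have h2 := h j hj x hx h1 hne
  rw [smul_pow, LinearMap.smul_apply, map_smul, smul_eq_mul]
  have h3 : 0 < t ^ (n - 2 * j) := by positivity
  nlinarith [mul_pos h3 h2]

lemma hodge_smul {X : 𝒱.Obj} {D E : X.Cycles} (hD : X.IsCyc 1 D) (hE : X.IsCyc 1 E) {ε : ℚ} {m n : ℤ}
    (hm : 0 < m) (hε : ε = n / m) (h : HodgeType W X (D + ε • E)) :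
    HodgeType W X (m • D + n • E) := by
  have h1 : X.IsCyc 1 (D + ε • E) := SmVar.IsCyc.add hD (hE.smul ε)
  have hm' : (0 : ℚ) < m := by exact_mod_cast hm
  have h2 : opL W X (m • D + n • E) = (m : ℚ) • opL W X (D + ε • E) := by
    apply LinearMap.ext
    intro x
    rw [LinearMap.smul_apply, opL_apply, opL_apply, rat_smul, ← smul_mul_assoc, ← rat_smul,
      ← cl_smul', smul_add, smul_smul, ← Int.cast_smul_eq_zsmul ℚ, ← Int.cast_smul_eq_zsmul ℚ]
    have h3 : (m : ℚ) * ε = n := by rw [hε]; field_simp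
    rw [h3]
  have h3 : X.IsCyc 1 (m • D + n • E) := by
    have := SmVar.IsCyc.add (hD.smul (m : ℚ)) (hE.smul (n : ℚ))
    rw [Int.cast_smul_eq_zsmul, Int.cast_smul_eq_zsmul] at this
    exact this
  rw [hodgeType_iff _ h3, h2]
  exact ((hodgeType_iff _ h1).1 h).smul hm'

/-- Varieties with a decomposition into pieces which satisfy the two conjectures. -/
theorem of_pieces' {Y : 𝒱.Obj} {A : Y.Cycles} (hA : Y.IsCyc 1 A) {ι : Type} [Fintype ι]
    {Z : ι → 𝒱.Obj} {D : ∀ a, (Z a).Cycles} {c m : ι → ℕ} {M : ℕ}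
    {γ : ∀ a, ((Z a).prod Y).Cycles} (h : IsSemismall W A D c m M γ)
    (hN : ∀ a, HomEqNum W (Z a)) (hH : ∀ a, HodgeType W (Z a) (D a)) :
    HomNum W Y ∧ ∀ E : Y.Cycles, Y.IsCyc 1 E → ∃ B : ℕ, ∀ m n : ℤ, B * |n| < m →
      HodgeFor W Y (m • A + n • E) := by
  obtain ⟨h1, h2, h3⟩ := of_pieces hA h.toDec hN hH
  refine ⟨h1, fun E hE => ?_⟩
  obtain ⟨ε₀, h4, h5⟩ := h3 E hE
  obtain ⟨B, hB⟩ := exists_nat_gt (1 / ε₀)
  refine ⟨B, fun m n hmn => ?_⟩
  have hm : 0 < m := lt_of_le_of_lt (by positivity) hmn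
  have hm' : (0 : ℚ) < m := by exact_mod_cast hm
  refine hodge_smul hA hE hm rfl (h5 _ ?_)
  rw [abs_div, abs_of_pos hm', div_lt_iff₀ hm']
  have h6 : ((B : ℚ)) * |(n : ℚ)| < m := by exact_mod_cast hmn
  have h7 : 1 < ε₀ * B := by
    rw [div_lt_iff₀ h4] at hB
    linarith
  rcases (abs_nonneg (n : ℚ)).eq_or_lt with h8 | h8
  · rw [← h8]; positivity
  · calc |(n : ℚ)| = 1 * |(n : ℚ)| := by ring
      _ < (ε₀ * B) * |(n : ℚ)| := by nlinarith
      _ = ε₀ * (B * |(n : ℚ)|) := by ring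
      _ < ε₀ * m := by nlinarith

end Pool.Agent.V7H1.HS
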