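import Pool.Agent.V7H1.HS.Semi
import Pool.Agent.V7H1.HS.SDefs

/-!
# Semismall decompositions and the standard conjecture of Hodge type
-/

set_option autoImplicit false

open CategoryTheory AlgebraicGeometry

universe u v

namespace Pool.Agent.V7H1.HS

open Pool.Agent.H914 Pool.Agent.H914.VarClass Pool.Agent.H914.VarClass.Obj
  Pool.Agent.H914.WeilCohomology Module

variable {k : Type u} [Field k] {𝒱 : VarClass k} {ops : CycleOps 𝒱}
  {W : WeilCohomology.{u, v} ops}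

attribute [local instance] ratMod

section Corr

variable (W) {Z Y : 𝒱.Obj}

/-- `γ_*` on cohomology -/
noncomputable def gF (γ : (Z.prod Y).Cycles) : W.H Z →ₗ[ℚ] W.H Y :=
  (W.push (snd Z Y) ∘ₗ LinearMap.mulLeft W.K (W.cl _ γ) ∘ₗ
    (W.map (fst Z Y)).toLinearMap).restrictScalars ℚ

/-- `γ^*` on cohomology -/
noncomputable def gB (γ : (Z.prod Y).Cycles) : W.H Y →ₗ[ℚ] W.H Z :=
  (W.push (fst Z Y) ∘ₗ LinearMap.mulLeft W.K (W.cl _ γ) ∘ₗ
    (W.map (snd Z Y)).toLinearMap).restrictScalars ℚ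

variable {W}

lemma gF_apply (γ : (Z.prod Y).Cycles) (x : W.H Z) :
    gF W γ x = W.push (snd Z Y) (W.cl _ γ * W.map (fst Z Y) x) := rfl

lemma gB_apply (γ : (Z.prod Y).Cycles) (y : W.H Y) :
    gB W γ y = W.push (fst Z Y) (W.cl _ γ * W.map (snd Z Y) y) := rfl

lemma gF_cl (γ : (Z.prod Y).Cycles) (x : Z.Cycles) :
    gF W γ (W.cl Z x) = W.cl Y (forth ops γ x) := by
  rw [gF_apply, forth, W.cl_push, W.cl_mul, W.cl_pull]

lemma gB_cl (γ : (Z.prod Y).Cycles) (y : Y.Cycles) :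
    gB W γ (W.cl Y y) = W.cl Z (back ops γ y) := by
  rw [gB_apply, back, W.cl_push, W.cl_mul, W.cl_pull]

lemma forth_mem {γ : (Z.prod Y).Cycles} {p i q : ℕ} (hγ : (Z.prod Y).IsCyc p γ) {x : Z.Cycles}
    (hx : Z.IsCyc i x) (h : p + i = q + Z.dim) : Y.IsCyc q (forth ops γ x) := by
  apply ops.push_mem _ (ops.mul_mem hγ (ops.pull_mem _ hx))
  rw [dim_prod]
  omega

lemma back_mem {γ : (Z.prod Y).Cycles} {p j q : ℕ} (hγ : (Z.prod Y).IsCyc p γ) {y : Y.Cycles}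
    (hy : Y.IsCyc j y) (h : p + j = q + Y.dim) : Z.IsCyc q (back ops γ y) := by
  apply ops.push_mem _ (ops.mul_mem hγ (ops.pull_mem _ hy))
  rw [dim_prod]
  omega

lemma gB_low {γ : (Z.prod Y).Cycles} {p j : ℕ} (hγ : (Z.prod Y).IsCyc p γ) {y : Y.Cycles}
    (hy : Y.IsCyc j y) (h : p + j < Y.dim) : gB W γ (W.cl Y y) = 0 := by
  have h1 := W.push_mem (fst Z Y) (W.mul_mem (W.cl_mem hγ) (W.map_mem (snd Z Y) (W.cl_mem hy)))
  rw [gB_apply]
  rw [grZ_of_neg (by rw [dim_prod]; push_cast; omega)] at h1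
  exact (Submodule.mem_bot _).1 h1

/-- adjointness -/
lemma g_adj {γ : (Z.prod Y).Cycles} {i : ℕ} {x : W.H Z} (hx : x ∈ algSub W Z i) (y : W.H Y) :
    form W Y (gF W γ x) y = form W Z x (gB W γ y) := by
  have hx' := algSub_gr hx
  rw [form_comm_even hx', form_apply, form_apply, gF_apply, gB_apply, W.tr_push, W.tr_push,
    mul_assoc, mul_assoc, W.even_comm (W.map_mem (fst Z Y) hx')]

/-- linearity over the divisors -/
lemma gF_comm {γ : (Z.prod Y).Cycles} {A : Y.Cycles}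
    {D : Z.Cycles} (hA : Y.IsCyc 1 A) (hD : Z.IsCyc 1 D)
    (h : W.cl _ (ops.mul (ops.pull (fst Z Y) D) γ) = W.cl _ (ops.mul (ops.pull (snd Z Y) A) γ))
    (x : W.H Z) : gF W γ (opL W Z D x) = opL W Y A (gF W γ x) := by
  rw [W.cl_mul, W.cl_mul, W.cl_pull, W.cl_pull] at h
  rw [gF_apply, gF_apply, opL_apply, opL_apply, W.mul_push _ (W.cl_mem hA),
    map_mul (W.map (fst Z Y)), ← mul_assoc, ← mul_assoc,
    ← W.even_comm (W.map_mem (fst Z Y) (W.cl_mem hD)), h]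

lemma gB_comm {γ : (Z.prod Y).Cycles} {A : Y.Cycles}
    {D : Z.Cycles} (hA : Y.IsCyc 1 A) (hD : Z.IsCyc 1 D)
    (h : W.cl _ (ops.mul (ops.pull (fst Z Y) D) γ) = W.cl _ (ops.mul (ops.pull (snd Z Y) A) γ))
    (y : W.H Y) : gB W γ (opL W Y A y) = opL W Z D (gB W γ y) := by
  rw [W.cl_mul, W.cl_mul, W.cl_pull, W.cl_pull] at h
  rw [gB_apply, gB_apply, opL_apply, opL_apply, W.mul_push _ (W.cl_mem hD),
    map_mul (W.map (snd Z Y)), ← mul_assoc, ← mul_assoc,
    ← W.even_comm (W.map_mem (snd Z Y) (W.cl_mem hA)), h]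

end Corr

variable {Y : 𝒱.Obj} {A : Y.Cycles} {ι : Type*} [Fintype ι] {Z : ι → 𝒱.Obj}
  {D : ∀ a, (Z a).Cycles} {c : ι → ℕ} {κ : ι → ℚ} {γ : ∀ a, ((Z a).prod Y).Cycles}

/-- the decomposition in cohomology -/
lemma toDec (hA : Y.IsCyc 1 A) (h : SemismallDecomposition W Y A Z D c κ γ) :
    Dec (algSub W Y) Y.dim (form W Y) (opL W Y A) (fun a => algSub W (Z a)) (fun a => (Z a).dim)
      (fun a => form W (Z a)) (fun a => opL W (Z a) (D a)) c κ (fun a => gF W (γ a))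
      (fun a => gB W (γ a)) where
  dim_eq := h.dim_eq
  pos := h.pos
  G_mem := by
    rintro a i _ ⟨x, hx, rfl⟩
    have hd := h.dim_eq a
    exact ⟨forth ops (γ a) x, forth_mem (h.codim a) hx (by omega), (gF_cl _ _).symm⟩
  G'_mem := by
    rintro a i _ ⟨y, hy, rfl⟩
    have hd := h.dim_eq a
    exact ⟨back ops (γ a) y, back_mem (h.codim a) hy (by omega), (gB_cl _ _).symm⟩
  G'_low := by
    rintro a j hj _ ⟨y, hy, rfl⟩
    have hd := h.dim_eq a
    exact gB_low (h.codim a) hy (by omega)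
  top := fun a i hi x hx => algSub_top hi hx
  M_mem := fun a i x hx => opL_mem (h.isDiv a) i x hx
  L_mem := fun j x hx => opL_mem hA j x hx
  symm := fun j x hx y => form_comm_even (algSub_gr hx) y
  symmβ := fun a i x hx y => form_comm_even (algSub_gr hx) y
  adj := fun a i j x hx y _ => g_adj hx y
  comm := fun a i x _ => gF_comm hA (h.isDiv a) (h.agree a) x
  comm' := fun a j y _ => gB_comm hA (h.isDiv a) (h.agree a) y
  orth := by
    rintro a b hab i _ ⟨x, hx, rfl⟩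
    change gB W (γ b) (gF W (γ a) (W.cl _ x)) = 0
    rw [gF_cl, gB_cl]
    exact h.orth a b hab i x hx
  dec := by
    rintro j _ ⟨y, hy, rfl⟩
    conv_lhs => rw [h.sum j y hy, map_sum]
    refine Finset.sum_congr rfl fun a _ => ?_
    rw [cl_smul', gB_cl, gF_cl]

lemma mem_fix_cl {a : ι} {i : ℕ} {x : W.H (Z a)} :
    x ∈ Dec.fix (fun a => algSub W (Z a)) c κ (fun a => gF W (γ a)) (fun a => gB W (γ a)) a i ↔
      ∃ z, (Z a).IsCyc i z ∧ W.cl _ z = x ∧
        W.cl _ (projector ops (c a) (κ a) (γ a) z) = W.cl _ z := by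
  have key : ∀ z, ((-1 : ℚ) ^ c a * (κ a)⁻¹) • gB W (γ a) (gF W (γ a) (W.cl _ z)) =
      W.cl _ (projector ops (c a) (κ a) (γ a) z) := by
    intro z
    rw [projector, cl_smul', gF_cl, gB_cl]
  rw [Dec.mem_fix]
  constructor
  · rintro ⟨⟨z, hz, rfl⟩, h0⟩
    exact ⟨z, hz, rfl, by rw [← key]; exact h0⟩
  · rintro ⟨z, hz, rfl, h0⟩
    exact ⟨⟨z, hz, rfl⟩, by rw [← key] at h0; exact h0⟩

lemma divPow_mem {X : 𝒱.Obj} {D : X.Cycles} (hD : X.IsCyc 1 D) (m : ℕ) :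
    ∀ j z, X.IsCyc j z → X.IsCyc (j + m) (divPow ops D m z) := by
  induction m with
  | zero => intro j z hz; exact hz
  | succ m ih =>
    intro j z hz
    rw [divPow, Function.iterate_succ_apply']
    have := ops.mul_mem hD (ih j z hz)
    rwa [show 1 + (j + m) = j + (m + 1) by omega] at this

lemma hodgeTypeOn_iff (a : ι) (hD : (Z a).IsCyc 1 (D a)) :
    HodgeTypeOn W (Z a) (D a) (projector ops (c a) (κ a) (γ a)) ↔
      HR (Dec.fix (fun a => algSub W (Z a)) c κ (fun a => gF W (γ a)) (fun a => gB W (γ a)) a)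
        (Z a).dim (form W (Z a)) (opL W (Z a) (D a)) := by
  constructor
  · rintro h j hj x hx h0 hne
    obtain ⟨z, hz, rfl, hP⟩ := mem_fix_cl.1 hx
    rw [opL_pow] at h0
    have := h j hj z hz hP h0 hne
    rw [opL_pow, form_cl hz (divPow_mem hD _ _ _ hz) (by omega)]
    exact this
  · intro h j hj z hz hP h0 hne
    have := h j hj _ (mem_fix_cl.2 ⟨z, hz, rfl, hP⟩) (by rw [opL_pow]; exact h0) hne
    rwa [opL_pow, form_cl hz (divPow_mem hD _ _ _ hz) (by omega)] at this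

lemma homEqNumOn_iff (a : ι) :
    HomEqNumOn W (Z a) (projector ops (c a) (κ a) (γ a)) ↔
      ND (Dec.fix (fun a => algSub W (Z a)) c κ (fun a => gF W (γ a)) (fun a => gB W (γ a)) a)
        (algSub W (Z a)) (Z a).dim (form W (Z a)) := by
  constructor
  · rintro h j hj x hx h0
    obtain ⟨z, hz, rfl, hP⟩ := mem_fix_cl.1 hx
    refine h j hj z hz hP fun w hw => ?_
    rw [← form_cl hz hw (by omega)]
    exact h0 _ ⟨w, hw, rfl⟩
  · intro h j hj z hz hP h0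
    refine h j hj _ (mem_fix_cl.2 ⟨z, hz, rfl, hP⟩) ?_
    rintro _ ⟨w, hw, rfl⟩
    rw [form_cl hz hw (by omega)]
    exact h0 w hw

/-- **The conjecture of Hodge type for the pull-back divisor.** -/
theorem hodge_iff (hA : Y.IsCyc 1 A) (h : SemismallDecomposition W Y A Z D c κ γ) :
    HodgeType W Y A ↔ ∀ a, HodgeTypeOn W (Z a) (D a) (projector ops (c a) (κ a) (γ a)) := by
  rw [hodgeType_iff A hA, (toDec hA h).hr_iff]
  exact forall_congr' fun a => (hodgeTypeOn_iff a (h.isDiv a)).symm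

/-- **The conjecture `D`.** -/
theorem homEqNum_iff' (hA : Y.IsCyc 1 A) (h : SemismallDecomposition W Y A Z D c κ γ) :
    HomEqNum W Y ↔ ∀ a, HomEqNumOn W (Z a) (projector ops (c a) (κ a) (γ a)) := by
  rw [homEqNum_iff]
  exact (toDec hA h).nd_iff.trans (forall_congr' fun a => (homEqNumOn_iff a).symm)

/-- **Hard Lefschetz for the algebraic classes and the pull-back divisor.** -/
theorem algLef_of (hA : Y.IsCyc 1 A) (h : SemismallDecomposition W Y A Z D c κ γ)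
    (hL : ∀ a, HardLefschetz W (Z a) (D a)) : AlgLef W Y A := by
  have h1 : LI (algSub W Y) Y.dim (opL W Y A) := by
    apply (toDec hA h).li_of
    intro a j hj x hx h0
    obtain ⟨z, hz, rfl, _⟩ := mem_fix_cl.1 hx
    rw [opL_pow] at h0
    exact algLef_of_hard (hL a) j hj z hz h0
  intro j hj z hz h0
  exact h1 j hj _ ⟨z, hz, rfl⟩ (by rw [opL_pow]; exact h0)

/-- **The standard conjectures for semismall morphisms.** -/
theorem semismall_tfae (hA : Y.IsCyc 1 A) (h : SemismallDecomposition W Y A Z D c κ γ)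
    (hL : ∀ a, HardLefschetz W (Z a) (D a)) {E : Y.Cycles} (hE : Y.IsCyc 1 E) :
    List.TFAE [∀ a, HomEqNumOn W (Z a) (projector ops (c a) (κ a) (γ a)) ∧
        HodgeTypeOn W (Z a) (D a) (projector ops (c a) (κ a) (γ a)),
      HomEqNum W Y ∧ HodgeType W Y A,
      HomEqNum W Y ∧ ∃ ε₀ : ℚ, 0 < ε₀ ∧ ∀ ε : ℚ, |ε| < ε₀ → HodgeType W Y (A + ε • E),
      HomEqNum W Y ∧ ∀ δ : ℚ, 0 < δ → ∃ ε : ℚ, 0 < ε ∧ ε < δ ∧ HodgeType W Y (A + ε • E)] := by
  tfae_have 1 ↔ 2 := by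
    rw [hodge_iff hA h, homEqNum_iff' hA h, forall_and]
  tfae_have 2 → 3 := fun h2 => ⟨h2.1, hodge_open h2.1 hA hE h2.2⟩
  tfae_have 3 → 4 := by
    rintro ⟨h3, ε₀, h0, h1⟩
    refine ⟨h3, fun δ hδ => ⟨min ε₀ δ / 2, by positivity, ?_, h1 _ ?_⟩⟩
    · have := min_le_right ε₀ δ
      have := lt_min h0 hδ
      linarith
    · have := min_le_left ε₀ δ
      have h5 := lt_min h0 hδ
      rw [abs_of_pos (by positivity)]
      linarith
  tfae_have 4 → 2 := by
    rintro ⟨h4, h5⟩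
    refine ⟨h4, hodge_closed h4 hA hE (algLef_of hA h hL) fun δ hδ => ?_⟩
    obtain ⟨ε, h1, h2, h3⟩ := h5 δ hδ
    exact ⟨ε, by rwa [abs_of_pos h1], h3⟩
  tfae_finish

end Pool.Agent.V7H1.HS
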