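import Pool.Agent.V7H1.HS.Fin

/-!
# The Hodge-Riemann property is open, and closed where hard Lefschetz holds
-/

set_option autoImplicit false

namespace Pool.Agent.V7H1.HS

open Module

variable {T : Type*} [AddCommGroup T] [Module ℚ T]

/-- the Hodge-Riemann property of an operator on the graded pieces `A j` -/
def HR (A : ℕ → Submodule ℚ T) (n : ℕ) (b : T →ₗ[ℚ] T →ₗ[ℚ] ℚ) (L : Module.End ℚ T) : Prop :=
  ∀ j, 2 * j ≤ n → ∀ x ∈ A j, (L ^ (n - 2 * j + 1)) x = 0 → x ≠ 0 →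
    0 < (-1 : ℚ) ^ j * b x ((L ^ (n - 2 * j)) x)

lemma adj_pow {b : T →ₗ[ℚ] T →ₗ[ℚ] ℚ} {L : Module.End ℚ T}
    (hL : ∀ x y, b (L x) y = b x (L y)) (m : ℕ) (x y : T) :
    b ((L ^ m) x) y = b x ((L ^ m) y) := by
  induction m generalizing x y with
  | zero => simp
  | succ m ih =>
    rw [pow_succ, Module.End.mul_apply, ih, hL, ← Module.End.mul_apply, ← pow_succ', pow_succ]

variable [FiniteDimensional ℚ T]

/-- the perturbation of a power is small -/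
lemma pow_close (L E : Module.End ℚ T) (m : ℕ) : ∃ C : ℚ, 0 < C ∧ ∀ ε : ℚ, |ε| ≤ 1 → ∀ x,
    nq (((L + ε • E) ^ m) x - (L ^ m) x) ≤ C * ε ^ 2 * nq x := by
  obtain ⟨CL, hCL, hL⟩ := map_le L
  obtain ⟨CE, hCE, hE⟩ := map_le E
  induction m with
  | zero => exact ⟨1, one_pos, fun ε _ x => by
      simp only [pow_zero, Module.End.one_apply, sub_self, nq_zero]
      have := nq_nonneg x
      positivity⟩
  | succ m ih =>
    obtain ⟨C, hC, h⟩ := ih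
    obtain ⟨C', hC', h'⟩ := map_le (E * L ^ m)
    refine ⟨4 * (CL + CE) * C + 2 * C', by positivity, fun ε hε x => ?_⟩
    have e1 : ((L + ε • E) ^ (m + 1)) x - (L ^ (m + 1)) x =
        (L + ε • E) (((L + ε • E) ^ m) x - (L ^ m) x) + ε • (E * L ^ m) x := by
      rw [pow_succ', pow_succ']
      simp only [Module.End.mul_apply, map_sub, LinearMap.add_apply, LinearMap.smul_apply]
      abel
    have hε2 : ε ^ 2 ≤ 1 := by
      rw [← sq_abs]; nlinarith [abs_nonneg ε]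
    rw [e1]
    have n0 := nq_nonneg x
    set y := ((L + ε • E) ^ m) x - (L ^ m) x
    have hy := h ε hε x
    have ny := nq_nonneg y
    have t1 : nq ((L + ε • E) y) ≤ 2 * (CL + CE) * nq y := by
      have := nq_add_le (L y) (ε • E y)
      rw [nq_smul] at this
      have a1 := hL y
      have a2 := hE y
      have a3 := nq_nonneg (E y)
      have e2 : (L + ε • E) y = L y + ε • E y := by simp
      rw [e2]
      nlinarith
    have t2 : nq (ε • (E * L ^ m) x) ≤ C' * ε ^ 2 * nq x := by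
      rw [nq_smul]
      have := h' x
      nlinarith [sq_nonneg ε]
    have t3 := nq_add_le ((L + ε • E) y) (ε • (E * L ^ m) x)
    have t4 : 2 * (2 * (CL + CE) * nq y) ≤ 2 * (2 * (CL + CE) * (C * ε ^ 2 * nq x)) := by
      have : 0 ≤ 2 * (CL + CE) := by positivity
      nlinarith
    calc nq ((L + ε • E) y + ε • (E * L ^ m) x) ≤ 2 * nq ((L + ε • E) y) +
          2 * nq (ε • (E * L ^ m) x) := t3
      _ ≤ 2 * (2 * (CL + CE) * nq y) + 2 * (C' * ε ^ 2 * nq x) := by linarith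
      _ ≤ 2 * (2 * (CL + CE) * (C * ε ^ 2 * nq x)) + 2 * (C' * ε ^ 2 * nq x) := by linarith
      _ = _ := by ring

/-- Finsler's lemma on a subspace -/
lemma finsler_on (A : Submodule ℚ T) (q : T →ₗ[ℚ] T →ₗ[ℚ] ℚ) (hs : ∀ x y, q x y = q y x)
    (M : Module.End ℚ T) (hp : ∀ x ∈ A, M x = 0 → x ≠ 0 → 0 < q x x) :
    ∃ κ C : ℚ, 0 < κ ∧ 0 < C ∧ ∀ x ∈ A, κ * nq x ≤ q x x + C * nq (M x) := by
  obtain ⟨κ, C, hκ, hC, h⟩ := finsler (F := A) (G := T) (q.compl₁₂ A.subtype A.subtype)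
    (fun x y => hs _ _) (M ∘ₗ A.subtype)
    (fun x hx hx0 => hp _ x.2 hx fun h => hx0 (Subtype.ext h))
  obtain ⟨c, hc, hc'⟩ := map_le A.subtype
  refine ⟨κ / c, C, by positivity, hC, fun x hx => ?_⟩
  have h1 := h ⟨x, hx⟩
  have h2 := hc' ⟨x, hx⟩
  simp only [LinearMap.compl₁₂_apply, Submodule.coe_subtype, LinearMap.comp_apply] at h1 h2
  calc κ / c * nq x ≤ κ / c * (c * nq (⟨x, hx⟩ : A)) := mul_le_mul_of_nonneg_left h2 (by positivity)
    _ = κ * nq (⟨x, hx⟩ : A) := by field_simp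
    _ ≤ _ := h1

/-- the bound for the perturbation of the form -/
lemma form_close (b : T →ₗ[ℚ] T →ₗ[ℚ] ℚ) (L E : Module.End ℚ T) (m : ℕ) :
    ∃ C : ℚ, 0 < C ∧ ∀ ε : ℚ, |ε| ≤ 1 → ∀ x,
      |b x (((L + ε • E) ^ m) x) - b x ((L ^ m) x)| ≤ C * |ε| * nq x := by
  obtain ⟨B, hB, hb⟩ := bilin_le b
  obtain ⟨C, hC, h⟩ := pow_close L E m
  refine ⟨B * (1 + C), by positivity, fun ε hε x => ?_⟩
  rw [← map_sub]
  by_cases h0 : ε = 0
  · subst h0
    simp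
  have hε0 : 0 < |ε| := abs_pos.2 h0
  have h1 := hb x (((L + ε • E) ^ m) x - (L ^ m) x) |ε| hε0
  have h2 := h ε hε x
  have h3 : nq (((L + ε • E) ^ m) x - (L ^ m) x) / |ε| ≤ C * |ε| * nq x := by
    rw [div_le_iff₀ hε0]
    calc _ ≤ _ := h2
      _ = _ := by rw [← sq_abs ε]; ring
  calc _ ≤ _ := h1
    _ ≤ B * (|ε| * nq x + C * |ε| * nq x) := mul_le_mul_of_nonneg_left (by linarith) hB.le
    _ = _ := by ring

lemma exists_small (P : ℕ → ℚ → Prop) (hP : ∀ j, ∃ δ : ℚ, 0 < δ ∧ ∀ ε : ℚ, |ε| < δ → P j ε)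
    (N : ℕ) : ∃ δ : ℚ, 0 < δ ∧ ∀ ε : ℚ, |ε| < δ → ∀ j ≤ N, P j ε := by
  induction N with
  | zero =>
    obtain ⟨δ, hδ, h⟩ := hP 0
    exact ⟨δ, hδ, fun ε hε j hj => by rw [Nat.le_zero.1 hj]; exact h ε hε⟩
  | succ N ih =>
    obtain ⟨δ, hδ, h⟩ := ih
    obtain ⟨δ', hδ', h'⟩ := hP (N + 1)
    refine ⟨min δ δ', lt_min hδ hδ', fun ε hε j hj => ?_⟩
    rcases Nat.lt_or_ge N j with h1 | h1
    · have : j = N + 1 := by omega
      rw [this]; exact h' ε (lt_of_lt_of_le hε (min_le_right _ _))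
    · exact h ε (lt_of_lt_of_le hε (min_le_left _ _)) j h1

/-- **The Hodge-Riemann property is open.** -/
theorem open_HR (A : ℕ → Submodule ℚ T) (n : ℕ) (b : T →ₗ[ℚ] T →ₗ[ℚ] ℚ) (L E : Module.End ℚ T)
    (hb : ∀ x y, b x y = b y x) (hL : ∀ x y, b (L x) y = b x (L y)) (h : HR A n b L) :
    ∃ ε₀ : ℚ, 0 < ε₀ ∧ ∀ ε : ℚ, |ε| < ε₀ → HR A n b (L + ε • E) := by
  suffices hs : ∀ j, ∃ δ : ℚ, 0 < δ ∧ ∀ ε : ℚ, |ε| < δ → 2 * j ≤ n → ∀ x ∈ A j,
      ((L + ε • E) ^ (n - 2 * j + 1)) x = 0 → x ≠ 0 →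
        0 < (-1 : ℚ) ^ j * b x (((L + ε • E) ^ (n - 2 * j)) x) by
    obtain ⟨δ, hδ, hδ'⟩ := exists_small (fun j ε => 2 * j ≤ n → ∀ x ∈ A j,
      ((L + ε • E) ^ (n - 2 * j + 1)) x = 0 → x ≠ 0 →
        0 < (-1 : ℚ) ^ j * b x (((L + ε • E) ^ (n - 2 * j)) x)) hs n
    exact ⟨δ, hδ, fun ε hε j hj => hδ' ε hε j (by omega) hj⟩
  intro j
  by_cases hj : 2 * j ≤ n
  swap
  · exact ⟨1, one_pos, fun ε _ h => absurd h hj⟩
  set m := n - 2 * j with hm
  set s : ℚ := (-1 : ℚ) ^ j with hs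
  have hs1 : |s| = 1 := by rw [hs, abs_pow, abs_neg, abs_one, one_pow]
  obtain ⟨κ, C, hκ, hC, hF⟩ := finsler_on (A j) (s • b.compl₂ (L ^ m)) (fun x y => by
      simp only [LinearMap.smul_apply, LinearMap.compl₂_apply, smul_eq_mul]
      rw [← adj_pow hL, hb]) (L ^ (m + 1)) (fun x hx h1 h2 => by
      simpa only [LinearMap.smul_apply, LinearMap.compl₂_apply, smul_eq_mul] using
        h j hj x hx h1 h2)
  obtain ⟨C₁, hC₁, hp⟩ := pow_close L E (m + 1)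
  obtain ⟨C₂, hC₂, hq⟩ := form_close b L E m
  have hD : 0 < C * C₁ + C₂ := by positivity
  refine ⟨min 1 (κ / (C * C₁ + C₂)), lt_min one_pos (by positivity),
    fun ε hε _ x hx hx0 hne => ?_⟩
  have hε1 : |ε| < 1 := lt_of_lt_of_le hε (min_le_left _ _)
  have hε2 : |ε| < κ / (C * C₁ + C₂) := lt_of_lt_of_le hε (min_le_right _ _)
  rw [lt_div_iff₀ hD] at hε2
  have hx1 := hF x hx
  simp only [LinearMap.smul_apply, LinearMap.compl₂_apply, smul_eq_mul] at hx1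
  have hp1 := hp ε hε1.le x
  rw [hx0, zero_sub, nq_neg] at hp1
  have hq1 := hq ε hε1.le x
  have hnx := nq_pos hne
  have e1 : |s * b x (((L + ε • E) ^ m) x) - s * b x ((L ^ m) x)| ≤ C₂ * |ε| * nq x := by
    rw [← mul_sub, abs_mul, hs1, one_mul]
    exact hq1
  have e2 := (abs_le.1 e1).1
  have e3 : ε ^ 2 ≤ |ε| := by
    rw [← sq_abs]
    nlinarith [abs_nonneg ε]
  have e4 : C * nq ((L ^ (m + 1)) x) ≤ C * C₁ * |ε| * nq x := by
    calc C * nq ((L ^ (m + 1)) x) ≤ C * (C₁ * ε ^ 2 * nq x) :=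
          mul_le_mul_of_nonneg_left hp1 hC.le
      _ = C * C₁ * nq x * ε ^ 2 := by ring
      _ ≤ C * C₁ * nq x * |ε| := mul_le_mul_of_nonneg_left e3 (by positivity)
      _ = _ := by ring
  have e5 : (C * C₁ + C₂) * |ε| * nq x < κ * nq x := by
    apply mul_lt_mul_of_pos_right _ hnx
    linarith
  have e6 : (C * C₁ + C₂) * |ε| * nq x = C * C₁ * |ε| * nq x + C₂ * |ε| * nq x := by ring
  linarith

end Pool.Agent.V7H1.HS
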