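import Pool.Agent.V7H1.HS.Geo

/-!
# Semismall decompositions and the Hodge-Riemann property: linear algebra
-/

set_option autoImplicit false

namespace Pool.Agent.V7H1.HS

open Module

/-- nondegeneracy between complementary pieces: the elements of the subspaces `A' j` which are
orthogonal to `A (n - j)` vanish -/
def ND {V : Type*} [AddCommGroup V] [Module ℚ V] (A' A : ℕ → Submodule ℚ V) (n : ℕ)
    (b : V →ₗ[ℚ] V →ₗ[ℚ] ℚ) : Prop :=
  ∀ j ≤ n, ∀ x ∈ A' j, (∀ y ∈ A (n - j), b x y = 0) → x = 0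

/-- injectivity in hard Lefschetz -/
def LI {V : Type*} [AddCommGroup V] [Module ℚ V] (A : ℕ → Submodule ℚ V) (n : ℕ)
    (L : Module.End ℚ V) : Prop :=
  ∀ j, 2 * j ≤ n → ∀ x ∈ A j, (L ^ (n - 2 * j)) x = 0 → x = 0

/-- an orthogonal decomposition with shifts `c a` and signs `(-1) ^ c a` -/
structure Dec {V : Type*} [AddCommGroup V] [Module ℚ V] {ι : Type*} [Fintype ι] {S : ι → Type*}
    [∀ a, AddCommGroup (S a)] [∀ a, Module ℚ (S a)] (A : ℕ → Submodule ℚ V) (n : ℕ)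
    (b : V →ₗ[ℚ] V →ₗ[ℚ] ℚ) (L : Module.End ℚ V) (B : ∀ a, ℕ → Submodule ℚ (S a)) (m : ι → ℕ)
    (β : ∀ a, S a →ₗ[ℚ] S a →ₗ[ℚ] ℚ) (M : ∀ a, Module.End ℚ (S a)) (c : ι → ℕ) (κ : ι → ℚ)
    (G : ∀ a, S a →ₗ[ℚ] V) (G' : ∀ a, V →ₗ[ℚ] S a) : Prop where
  dim_eq : ∀ a, n = m a + 2 * c a
  pos : ∀ a, 0 < κ a
  G_mem : ∀ a i, ∀ x ∈ B a i, G a x ∈ A (i + c a)
  G'_mem : ∀ a i, ∀ y ∈ A (i + c a), G' a y ∈ B a i
  G'_low : ∀ a j, j < c a → ∀ y ∈ A j, G' a y = 0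
  top : ∀ a i, m a < i → ∀ x ∈ B a i, x = 0
  M_mem : ∀ a i, ∀ x ∈ B a i, M a x ∈ B a (i + 1)
  L_mem : ∀ j, ∀ x ∈ A j, L x ∈ A (j + 1)
  symm : ∀ j, ∀ x ∈ A j, ∀ y, b x y = b y x
  symmβ : ∀ a i, ∀ x ∈ B a i, ∀ y, β a x y = β a y x
  adj : ∀ a i j, ∀ x ∈ B a i, ∀ y ∈ A j, b (G a x) y = β a x (G' a y)
  comm : ∀ a i, ∀ x ∈ B a i, G a (M a x) = L (G a x)
  comm' : ∀ a j, ∀ y ∈ A j, G' a (L y) = M a (G' a y)
  orth : ∀ a a', a ≠ a' → ∀ i, ∀ x ∈ B a i, G' a' (G a x) = 0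
  dec : ∀ j, ∀ y ∈ A j, y = ∑ a, ((-1 : ℚ) ^ c a * (κ a)⁻¹) • G a (G' a y)

namespace Dec

variable {V : Type*} [AddCommGroup V] [Module ℚ V] {ι : Type*} [Fintype ι] {S : ι → Type*}
  [∀ a, AddCommGroup (S a)] [∀ a, Module ℚ (S a)] {A : ℕ → Submodule ℚ V} {n : ℕ}
  {b : V →ₗ[ℚ] V →ₗ[ℚ] ℚ} {L : Module.End ℚ V} {B : ∀ a, ℕ → Submodule ℚ (S a)} {m : ι → ℕ}
  {β : ∀ a, S a →ₗ[ℚ] S a →ₗ[ℚ] ℚ} {M : ∀ a, Module.End ℚ (S a)} {c : ι → ℕ} {κ : ι → ℚ}
  {G : ∀ a, S a →ₗ[ℚ] V} {G' : ∀ a, V →ₗ[ℚ] S a} (h : Dec A n b L B m β M c κ G G')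

/-- the projector of the piece `a` -/
def pr (c : ι → ℕ) (κ : ι → ℚ) (G : ∀ a, S a →ₗ[ℚ] V) (G' : ∀ a, V →ₗ[ℚ] S a) (a : ι) :
    Module.End ℚ (S a) := ((-1 : ℚ) ^ c a * (κ a)⁻¹) • (G' a ∘ₗ G a)

/-- the part of the piece `a` which is fixed by the projector -/
def fix (B : ∀ a, ℕ → Submodule ℚ (S a)) (c : ι → ℕ) (κ : ι → ℚ) (G : ∀ a, S a →ₗ[ℚ] V)
    (G' : ∀ a, V →ₗ[ℚ] S a) (a : ι) (i : ℕ) : Submodule ℚ (S a) :=
  B a i ⊓ LinearMap.eqLocus (pr c κ G G' a) LinearMap.id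

/-- the component in the piece `a` -/
def co (c : ι → ℕ) (κ : ι → ℚ) (G' : ∀ a, V →ₗ[ℚ] S a) (a : ι) : V →ₗ[ℚ] S a :=
  ((-1 : ℚ) ^ c a * (κ a)⁻¹) • G' a

lemma mem_fix {a : ι} {i : ℕ} {x : S a} : x ∈ fix B c κ G G' a i ↔
    x ∈ B a i ∧ ((-1 : ℚ) ^ c a * (κ a)⁻¹) • G' a (G a x) = x := Iff.rfl

include h

lemma s_sq (a : ι) : ((-1 : ℚ) ^ c a * (κ a)⁻¹) * ((-1 : ℚ) ^ c a * κ a) = 1 := by
  have h1 : ((-1 : ℚ) ^ c a) * ((-1 : ℚ) ^ c a) = 1 := by
    rw [← mul_pow]; norm_num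
  have h2 : (κ a)⁻¹ * κ a = 1 := inv_mul_cancel₀ (h.pos a).ne'
  calc _ = ((-1 : ℚ) ^ c a) * ((-1 : ℚ) ^ c a) * ((κ a)⁻¹ * κ a) := by ring
    _ = 1 := by rw [h1, h2, mul_one]

lemma dec' {j : ℕ} {y : V} (hy : y ∈ A j) : y = ∑ a, G a (co c κ G' a y) := by
  conv_lhs => rw [h.dec j y hy]
  exact Finset.sum_congr rfl fun a _ => by rw [co, LinearMap.smul_apply, map_smul]

lemma co_mem {j : ℕ} {y : V} (hy : y ∈ A j) (a : ι) :
    co c κ G' a y ∈ fix B c κ G G' a (j - c a) := by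
  have hB : G' a y ∈ B a (j - c a) := by
    rcases Nat.lt_or_ge j (c a) with h1 | h1
    · rw [h.G'_low a j h1 y hy]; exact Submodule.zero_mem _
    · exact h.G'_mem a _ y (by rwa [Nat.sub_add_cancel h1])
  have hco : ∀ a, co c κ G' a y ∈ B a (j - c a) := by
    intro a
    have hB : G' a y ∈ B a (j - c a) := by
      rcases Nat.lt_or_ge j (c a) with h1 | h1
      · rw [h.G'_low a j h1 y hy]; exact Submodule.zero_mem _
      · exact h.G'_mem a _ y (by rwa [Nat.sub_add_cancel h1])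
    exact Submodule.smul_mem _ _ hB
  refine mem_fix.2 ⟨hco a, ?_⟩
  have h1 : G' a y = G' a (G a (co c κ G' a y)) := by
    conv_lhs => rw [h.dec' hy]
    rw [map_sum, Finset.sum_eq_single a]
    · intro a' _ ha'
      exact h.orth a' a ha' _ _ (hco a')
    · intro h0; exact absurd (Finset.mem_univ a) h0
  rw [← h1]
  rfl

lemma co_low {j : ℕ} {y : V} (hy : y ∈ A j) {a : ι} (ha : j < c a) : co c κ G' a y = 0 := by
  rw [co, LinearMap.smul_apply, h.G'_low a j ha y hy, smul_zero]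

lemma Mpow_mem (a : ι) (r : ℕ) : ∀ i, ∀ x ∈ B a i, (M a ^ r) x ∈ B a (i + r) :=
  pow_mem' (h.M_mem a) r

lemma Lpow_mem (r : ℕ) : ∀ i, ∀ x ∈ A i, (L ^ r) x ∈ A (i + r) := pow_mem' h.L_mem r

lemma G_pow (a : ι) (r : ℕ) : ∀ i, ∀ x ∈ B a i, G a ((M a ^ r) x) = (L ^ r) (G a x) := by
  induction r with
  | zero => intro i x _; rfl
  | succ r ih =>
    intro i x hx
    rw [pow_succ', pow_succ', Module.End.mul_apply, Module.End.mul_apply,
      h.comm a _ _ (h.Mpow_mem a r i x hx), ih i x hx]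

lemma co_pow (a : ι) (r : ℕ) : ∀ j, ∀ y ∈ A j, co c κ G' a ((L ^ r) y) =
    (M a ^ r) (co c κ G' a y) := by
  induction r with
  | zero => intro j y _; rfl
  | succ r ih =>
    intro j y hy
    rw [pow_succ', pow_succ', Module.End.mul_apply, Module.End.mul_apply, ← ih j y hy, co,
      LinearMap.smul_apply, LinearMap.smul_apply, h.comm' a _ _ (h.Lpow_mem r j y hy), map_smul]

/-- the form on a piece -/
lemma form_fix {a : ι} {i i' : ℕ} {x w : S a} (hx : x ∈ fix B c κ G G' a i) (hw : w ∈ B a i') :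
    b (G a x) (G a w) = (-1 : ℚ) ^ c a * κ a * β a x w := by
  obtain ⟨hx1, hx2⟩ := mem_fix.1 hx
  have h1 : b (G a x) (G a w) = β a w (G' a (G a x)) := by
    rw [h.symm _ _ (h.G_mem a i x hx1), h.adj a i' _ w hw _ (h.G_mem a i x hx1)]
  have h2 : G' a (G a x) = ((-1 : ℚ) ^ c a * κ a) • x := by
    conv_rhs => rw [← hx2]
    rw [smul_smul, mul_comm, h.s_sq, one_smul]
  rw [h1, h2, map_smul, smul_eq_mul, h.symmβ a i' w hw]

/-- the form on a sum -/
lemma form_sum {j j' : ℕ} {y w : V} (hy : y ∈ A j) (hw : w ∈ A j') :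
    b y w = ∑ a, (-1 : ℚ) ^ c a * κ a * β a (co c κ G' a y) (co c κ G' a w) := by
  conv_lhs => rw [h.dec' hy]
  rw [map_sum, LinearMap.sum_apply]
  refine Finset.sum_congr rfl fun a _ => ?_
  have h1 := (mem_fix.1 (h.co_mem hy a)).1
  rw [h.adj a _ j' _ h1 _ hw]
  have h2 : G' a w = ((-1 : ℚ) ^ c a * κ a) • co c κ G' a w := by
    rw [co, LinearMap.smul_apply, smul_smul, mul_comm, h.s_sq, one_smul]
  rw [h2, map_smul, smul_eq_mul]

/-- **Transfer of the Hodge-Riemann property.** -/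
theorem hr_iff : HR A n b L ↔ ∀ a, HR (fix B c κ G G' a) (m a) (β a) (M a) := by
  constructor
  · intro hR a i hi x hx hx0 hne
    obtain ⟨hx1, hx2⟩ := mem_fix.1 hx
    have hd := h.dim_eq a
    have e1 : n - 2 * (i + c a) = m a - 2 * i := by omega
    have h1 := hR (i + c a) (by omega) (G a x) (h.G_mem a i x hx1)
      (by rw [e1, ← h.G_pow a _ i x hx1, hx0, map_zero])
      (fun h0 => hne (by rw [← hx2, h0, map_zero, smul_zero]))
    rw [e1, ← h.G_pow a _ i x hx1, h.form_fix hx (h.Mpow_mem a _ i x hx1)] at h1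
    have h2 : (-1 : ℚ) ^ (i + c a) * ((-1 : ℚ) ^ c a * κ a * β a x ((M a ^ (m a - 2 * i)) x)) =
        κ a * ((-1 : ℚ) ^ i * β a x ((M a ^ (m a - 2 * i)) x)) := by
      have h3 : ((-1 : ℚ) ^ c a) * ((-1 : ℚ) ^ c a) = 1 := by
        rw [← mul_pow]; norm_num
      rw [pow_add]
      calc _ = ((-1 : ℚ) ^ c a) * ((-1 : ℚ) ^ c a) *
            (κ a * ((-1 : ℚ) ^ i * β a x ((M a ^ (m a - 2 * i)) x))) := by ring
        _ = _ := by rw [h3, one_mul]
    rw [h2] at h1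
    exact (mul_pos_iff_of_pos_left (h.pos a)).1 h1
  · intro hR j hj y hy hy0 hne
    rw [h.form_sum hy (h.Lpow_mem _ j y hy), Finset.mul_sum]
    have key : ∀ a, co c κ G' a y ≠ 0 → 0 < (-1 : ℚ) ^ j * ((-1 : ℚ) ^ c a * κ a *
        β a (co c κ G' a y) (co c κ G' a ((L ^ (n - 2 * j)) y))) := by
      intro a ha
      have hd := h.dim_eq a
      have hca : c a ≤ j := by
        by_contra h0
        exact ha (h.co_low hy (by omega))
      have e1 : m a - 2 * (j - c a) = n - 2 * j := by omega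
      have h1 := hR a (j - c a) (by omega) (co c κ G' a y) (h.co_mem hy a)
        (by rw [e1, ← h.co_pow a _ j y hy, hy0, map_zero]) ha
      rw [e1] at h1
      rw [h.co_pow a _ j y hy]
      have h3 : (-1 : ℚ) ^ j * (-1 : ℚ) ^ c a = (-1 : ℚ) ^ (j - c a) := by
        have : (-1 : ℚ) ^ j = (-1 : ℚ) ^ (j - c a) * (-1 : ℚ) ^ c a := by
          rw [← pow_add, Nat.sub_add_cancel hca]
        rw [this, mul_assoc, ← mul_pow]; norm_num
      calc 0 < κ a * ((-1 : ℚ) ^ (j - c a) *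
            β a (co c κ G' a y) ((M a ^ (n - 2 * j)) (co c κ G' a y))) := mul_pos (h.pos a) h1
        _ = _ := by rw [← h3]; ring
    have key0 : ∀ a, 0 ≤ (-1 : ℚ) ^ j * ((-1 : ℚ) ^ c a * κ a *
        β a (co c κ G' a y) (co c κ G' a ((L ^ (n - 2 * j)) y))) := by
      intro a
      by_cases ha : co c κ G' a y = 0
      · rw [ha]; simp
      · exact (key a ha).le
    have hex : ∃ a, co c κ G' a y ≠ 0 := by
      by_contra h0
      push Not at h0
      apply hne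
      rw [h.dec' hy]
      exact Finset.sum_eq_zero fun a _ => by rw [h0 a, map_zero]
    obtain ⟨a, ha⟩ := hex
    exact Finset.sum_pos' (fun a _ => key0 a) ⟨a, Finset.mem_univ a, key a ha⟩

/-- **Transfer of nondegeneracy.** -/
theorem nd_iff : ND A A n b ↔ ∀ a, ND (fix B c κ G G' a) (B a) (m a) (β a) := by
  constructor
  · intro hN a i hi x hx h0
    obtain ⟨hx1, hx2⟩ := mem_fix.1 hx
    have hd := h.dim_eq a
    have h1 := hN (i + c a) (by omega) (G a x) (h.G_mem a i x hx1) (fun y hy => by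
      rw [h.adj a i _ x hx1 y hy]
      apply h0
      apply h.G'_mem
      rwa [show m a - i + c a = n - (i + c a) by omega])
    rw [← hx2, h1, map_zero, smul_zero]
  · intro hN j hj y hy h0
    rw [h.dec' hy]
    refine Finset.sum_eq_zero fun a _ => ?_
    have hd := h.dim_eq a
    have hmem := h.co_mem hy a
    suffices hs : co c κ G' a y = 0 by rw [hs, map_zero]
    by_cases hca : j < c a
    · exact h.co_low hy hca
    by_cases htop : m a < j - c a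
    · exact h.top a _ htop _ (mem_fix.1 hmem).1
    apply hN a (j - c a) (by omega) _ hmem
    intro w hw
    have hGw : G a w ∈ A (n - j) := by
      have := h.G_mem a _ w hw
      rwa [show m a - (j - c a) + c a = n - j by omega] at this
    have h1 : b (G a w) y = 0 := by rw [h.symm _ _ hGw]; exact h0 _ hGw
    rw [h.adj a _ j w hw y hy] at h1
    rw [h.symmβ a _ _ (mem_fix.1 hmem).1, co, LinearMap.smul_apply, map_smul, h1, smul_zero]

/-- **Transfer of hard Lefschetz.** -/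
theorem li_of (hL : ∀ a, LI (fix B c κ G G' a) (m a) (M a)) : LI A n L := by
  intro j hj y hy hy0
  rw [h.dec' hy]
  refine Finset.sum_eq_zero fun a _ => ?_
  have hd := h.dim_eq a
  have hmem := h.co_mem hy a
  suffices hs : co c κ G' a y = 0 by rw [hs, map_zero]
  by_cases hca : j < c a
  · exact h.co_low hy hca
  apply hL a (j - c a) (by omega) _ hmem
  rw [show m a - 2 * (j - c a) = n - 2 * j by omega, ← h.co_pow a _ j y hy, hy0, map_zero]

end Dec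

end Pool.Agent.V7H1.HS
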